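import Pool.Agent.Q13.GM.Loc2

set_option autoImplicit false

/-!
Real and imaginary parts of forms with algebraic coefficients.
-/

namespace Pool.Agent.Q13.GM

open MvPolynomial Pool.Agent.W180.RR Module

/-- the complex vector -/
noncomputable def cx {n : ℕ} (P : Fin n → ℝ) : Fin n → ℂ := fun b => (P b : ℂ)

/-- real or imaginary part -/
noncomputable def ri (s : Bool) : ℂ →ₗ[ℝ] ℝ := if s then Complex.reLm else Complex.imLm

lemma ri_le (s : Bool) (z : ℂ) : |ri s z| ≤ ‖z‖ := by
  cases s
  · exact Complex.abs_im_le_norm z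
  · exact Complex.abs_re_le_norm z

lemma ri_alg (s : Bool) {z : ℂ} (hz : IsAlgebraic ℚ z) : IsAlgebraic ℚ (ri s z) := by
  cases s
  · exact Pool.Agent.Q13.CQ.alg_im hz
  · exact Pool.Agent.Q13.AP.alg_re hz

lemma ri_mul (s : Bool) (z : ℂ) (t : ℝ) : ri s (z * t) = ri s z * t := by
  have h : z * (t : ℂ) = t • z := by rw [Complex.real_smul, mul_comm]
  rw [h, map_smul, smul_eq_mul, mul_comm]

section

variable {n : ℕ} (F : MvPolynomial (Fin n) ℂ) (hF : ∀ e, IsAlgebraic ℚ (coeff e F))

/-- the real or imaginary part of a polynomial -/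
noncomputable def pt (s : Bool) : MvPolynomial (Fin n) Qr :=
  ∑ e ∈ F.support, monomial e ⟨ri s (coeff e F), mem_algebraicClosure_iff.2 (ri_alg s (hF e))⟩

lemma pt_eval (s : Bool) (η : Fin n → ℝ) : aeval η (pt F hF s) = ri s (eval (cx η) F) := by
  unfold pt
  rw [map_sum, eval_eq', map_sum]
  refine Finset.sum_congr rfl fun e _ => ?_
  rw [aeval_monomial, Finsupp.prod_fintype _ _ (by simp)]
  have h : ∏ i, cx η i ^ e i = ((∏ i, η i ^ e i : ℝ) : ℂ) := by
    push_cast
    rfl
  rw [h, ri_mul]
  rfl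

lemma pt_pderiv (s : Bool) (j : Fin n) (η : Fin n → ℝ) :
    aeval η (pderiv j (pt F hF s)) = ri s (eval (cx η) (pderiv j F)) := by
  have h1 : pderiv j F = ∑ e ∈ F.support, pderiv j (monomial e (coeff e F)) := by
    rw [← map_sum]
    congr 1
    exact F.as_sum
  rw [h1, map_sum, map_sum]
  unfold pt
  rw [map_sum, map_sum]
  refine Finset.sum_congr rfl fun e _ => ?_
  rw [pderiv_monomial, pderiv_monomial, aeval_monomial, eval_monomial,
    Finsupp.prod_fintype _ _ (by simp), Finsupp.prod_fintype _ _ (by simp)]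
  have h : ∏ i, cx η i ^ (e - Finsupp.single j 1 : Fin n →₀ ℕ) i =
      ((∏ i, η i ^ (e - Finsupp.single j 1 : Fin n →₀ ℕ) i : ℝ) : ℂ) := by
    push_cast
    rfl
  have h2 : coeff e F * (e j : ℂ) = coeff e F * ((e j : ℝ) : ℂ) := by push_cast; rfl
  rw [h, ri_mul, h2, ri_mul]
  rfl

lemma pt_hom {d : ℕ} (hd : F.IsHomogeneous d) (s : Bool) : (pt F hF s).IsHomogeneous d := by
  unfold pt
  refine IsHomogeneous.sum _ _ _ fun e he => ?_
  apply isHomogeneous_monomial
  have h1 := hd (mem_support_iff.1 he)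
  rw [Finsupp.weight_apply, Finsupp.sum_fintype _ _ (by simp)] at h1
  simp only [Pi.one_apply, smul_eq_mul, mul_one] at h1
  rw [← h1, Finsupp.degree_eq_sum]

end

/-- the choice of the parts -/
lemma choose_parts {m : ℕ} (v : Fin (m + 1) → ℝ) (w : Fin m → Fin (m + 1) → ℂ)
    (h : (Matrix.of (Fin.cons (cx v) w : Fin (m + 1) → Fin (m + 1) → ℂ)).det ≠ 0) :
    ∃ s : Fin m → Bool, (Matrix.of (Fin.cons v (fun i j => ri (s i) (w i j)) :
      Fin (m + 1) → Fin (m + 1) → ℝ)).det ≠ 0 := by
  classical
  have key : ∀ T : Finset (Fin m), ∃ s : Fin m → Bool,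
      (Matrix.of (Fin.cons (cx v) (fun i j => if i ∈ T then (ri (s i) (w i j) : ℂ) else w i j) :
        Fin (m + 1) → Fin (m + 1) → ℂ)).det ≠ 0 := by
    intro T
    induction T using Finset.induction_on with
    | empty => exact ⟨fun _ => true, by simpa using h⟩
    | insert i T hi ih =>
      obtain ⟨s, hs⟩ := ih
      by_contra hcon
      push Not at hcon
      apply hs
      set M : Matrix (Fin (m + 1)) (Fin (m + 1)) ℂ :=
        Matrix.of (Fin.cons (cx v) (fun i j => if i ∈ T then (ri (s i) (w i j) : ℂ) else w i j) :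
        Fin (m + 1) → Fin (m + 1) → ℂ) with hM
      have h1 : ∀ b : Bool, (M.updateRow i.succ fun j => (ri b (w i j) : ℂ)).det = 0 := by
        intro b
        rw [← hcon (Function.update s i b)]
        congr 1
        ext a j
        refine Fin.cases ?_ (fun a => ?_) a
        · rw [Matrix.updateRow_ne (by exact (Fin.succ_ne_zero i).symm)]
          rfl
        · by_cases hai : a = i
          · subst hai
            rw [Matrix.updateRow_self]
            simp
          · rw [Matrix.updateRow_ne (by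
              intro h
              exact hai (Fin.succ_injective _ h))]
            simp only [hM, Matrix.of_apply, Fin.cons_succ, Finset.mem_insert, hai, false_or,
              Function.update_of_ne hai]
      have h2 : M = M.updateRow i.succ ((fun j => (ri true (w i j) : ℂ)) +
          Complex.I • fun j => (ri false (w i j) : ℂ)) := by
        ext a j
        by_cases hai : a = i.succ
        · subst hai
          rw [Matrix.updateRow_self]
          simp only [hM, Matrix.of_apply, Fin.cons_succ, hi, if_false, Pi.add_apply, Pi.smul_apply,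
            smul_eq_mul]
          have := Complex.re_add_im (w i j)
          rw [mul_comm] at this
          exact this.symm
        · rw [Matrix.updateRow_ne hai]
      rw [h2, Matrix.det_updateRow_add, Matrix.det_updateRow_smul, h1, h1, mul_zero, add_zero]
  obtain ⟨s, hs⟩ := key Finset.univ
  refine ⟨s, fun h0 => hs ?_⟩
  have h1 := congrArg (Complex.ofRealHom) h0
  rw [RingHom.map_det, map_zero] at h1
  rw [← h1]
  congr 1
  ext a j
  refine Fin.cases ?_ (fun a => ?_) a
  · rfl
  · simp only [Matrix.of_apply, Fin.cons_succ, Finset.mem_univ, if_true]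
    rfl

/-- Euler's identity at a zero -/
lemma euler {n d : ℕ} {F : MvPolynomial (Fin n) ℂ} (hF : F.IsHomogeneous d) {P : Fin n → ℂ}
    (hP : eval P F = 0) : ∑ c, eval P (pderiv c F) * P c = 0 := by
  have h := congrArg (eval P) hF.sum_X_mul_pderiv
  rw [map_sum, map_nsmul, hP, smul_zero] at h
  rw [← h]
  refine Finset.sum_congr rfl fun c _ => ?_
  rw [map_mul, eval_X, mul_comm]

/-- homogeneity -/
lemma eval_hom {k : Type} [CommRing k] {n d : ℕ} {F : MvPolynomial (Fin n) k}
    (hF : F.IsHomogeneous d) (t : k)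
    (η : Fin n → k) : eval (fun j => t * η j) F = t ^ d * eval η F := by
  rw [eval_eq', eval_eq', Finset.mul_sum]
  refine Finset.sum_congr rfl fun m hm => ?_
  have h := hF (mem_support_iff.1 hm)
  rw [Finsupp.weight_apply, Finsupp.sum_fintype _ _ (by simp)] at h
  simp only [Pi.one_apply, smul_eq_mul, mul_one] at h
  simp_rw [mul_pow]
  rw [Finset.prod_mul_distrib, Finset.prod_pow_eq_pow_sum, h]
  ring

/-- the gradients at a crossing point and the unit vector -/
lemma det_cross {m : ℕ} {F : Fin m → MvPolynomial (Fin (m + 1)) ℂ} {d : Fin m → ℕ}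
    (hF : ∀ i, (F i).IsHomogeneous (d i)) (a : Fin (m + 1)) (P : Fin (m + 1) → ℝ) (hPa : P a = 1)
    (hP : ∀ i, eval (cx P) (F i) = 0)
    (hli : LinearIndependent ℂ fun i j => eval (cx P) (pderiv j (F i))) :
    (Matrix.of (Fin.cons (cx (Pi.single a 1)) (fun i j => eval (cx P) (pderiv j (F i))) :
      Fin (m + 1) → Fin (m + 1) → ℂ)).det ≠ 0 := by
  have h1 : LinearIndependent ℂ
      (Fin.cons (cx (Pi.single a 1)) (fun i j => eval (cx P) (pderiv j (F i))) :
      Fin (m + 1) → Fin (m + 1) → ℂ) := by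
    rw [linearIndependent_finCons]
    refine ⟨hli, fun hmem => ?_⟩
    let φ : (Fin (m + 1) → ℂ) →ₗ[ℂ] ℂ := ∑ j, (cx P j) • LinearMap.proj j
    have hφ : ∀ v : Fin (m + 1) → ℂ, φ v = ∑ j, v j * cx P j := by
      intro v
      simp only [φ, LinearMap.sum_apply, LinearMap.smul_apply, LinearMap.proj_apply, smul_eq_mul]
      exact Finset.sum_congr rfl fun j _ => mul_comm _ _
    have h2 : Submodule.span ℂ (Set.range fun i j => eval (cx P) (pderiv j (F i))) ≤
        LinearMap.ker φ := by
      rw [Submodule.span_le]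
      rintro _ ⟨i, rfl⟩
      show φ _ = 0
      rw [hφ]
      exact euler (hF i) (hP i)
    have h3 : φ (cx (Pi.single a 1)) = 0 := h2 hmem
    rw [hφ, Finset.sum_eq_single a] at h3
    · simp [cx, hPa] at h3
    · intro b _ hb
      simp [cx, Pi.single_eq_of_ne hb]
    · intro h
      exact absurd (Finset.mem_univ _) h
  exact ((Matrix.isUnit_iff_isUnit_det _).1
    (Matrix.linearIndependent_rows_iff_isUnit.1 h1)).ne_zero

/-- the algebraic local data at a crossing point -/
theorem cross {m : ℕ} {F : Fin m → MvPolynomial (Fin (m + 1)) ℂ} {d : Fin m → ℕ}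
    (hF : ∀ i, (F i).IsHomogeneous (d i)) (hFa : ∀ i e, IsAlgebraic ℚ (coeff e (F i)))
    (a : Fin (m + 1)) (P : Fin (m + 1) → ℝ) (hPa : P a = 1)
    (hP : ∀ i, eval (cx P) (F i) = 0)
    (hli : LinearIndependent ℂ fun i j => eval (cx P) (pderiv j (F i))) :
    ∃ (P' : Fin (m + 1) → Qr) (G : Fin m → MvPolynomial (Fin (m + 1)) Qr), P = rp P' ∧
      P' a = 1 ∧ (∀ i, eval P' (G i) = 0) ∧ (∀ i, (G i).IsHomogeneous (d i)) ∧
      (Matrix.of fun i j => eval P' (pderiv j (uu a G i))).det ≠ 0 ∧
      ∀ i η, |aeval η (G i)| ≤ ‖eval (cx η) (F i)‖ := by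
  obtain ⟨s, hs⟩ := choose_parts (Pi.single a 1) _ (det_cross hF a P hPa hP hli)
  let G : Fin m → MvPolynomial (Fin (m + 1)) Qr := fun i => pt (F i) (hFa i) (s i)
  have hGP : ∀ i, aeval P (G i) = 0 := by
    intro i
    rw [pt_eval, hP, map_zero]
  have e1 : (Matrix.of fun i j => aeval P (pderiv j (uu a G i))) =
      Matrix.of (Fin.cons (Pi.single a 1) (fun i j => ri (s i) (eval (cx P) (pderiv j (F i)))) :
      Fin (m + 1) → Fin (m + 1) → ℝ) := by
    ext i j
    refine Fin.cases ?_ (fun i => ?_) i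
    · show aeval P (pderiv j (X a - 1 : MvPolynomial (Fin (m + 1)) Qr)) =
        (Pi.single a 1 : Fin (m + 1) → ℝ) j
      rw [map_sub, pderiv_one, sub_zero, pderiv_X]
      by_cases h : j = a
      · subst h
        simp
      · rw [Pi.single_eq_of_ne h, Pi.single_eq_of_ne (by tauto)]
        simp
    · show aeval P (pderiv j (G i)) = ri (s i) (eval (cx P) (pderiv j (F i)))
      rw [pt_pderiv]
  have halg := Pool.Agent.Q13.CQ.alg_point (k := Qr) P (uu a G) (by
    intro i
    refine Fin.cases ?_ (fun i => ?_) i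
    · show aeval P (X a - 1 : MvPolynomial (Fin (m + 1)) Qr) = 0
      rw [map_sub, aeval_X, map_one, hPa, sub_self]
    · exact hGP i) (by
    rw [e1]
    exact hs)
  have halg' : ∀ j, IsAlgebraic ℚ (P j) := by
    intro j
    have h2 := halg j
    have : Algebra.IsAlgebraic ℚ Qr := algebraicClosure.isAlgebraic ℚ ℝ
    exact h2.restrictScalars ℚ
  let P' : Fin (m + 1) → Qr := fun j => ⟨P j, mem_algebraicClosure_iff.2 (halg' j)⟩
  have hP' : ∀ f : MvPolynomial (Fin (m + 1)) Qr, ((eval P' f : Qr) : ℝ) = aeval P f := by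
    intro f
    have h1 := MvPolynomial.comp_aeval_apply (R := Qr) P' (IsScalarTower.toAlgHom Qr Qr ℝ) f
    exact h1
  refine ⟨P', G, rfl, Subtype.ext hPa, ?_, fun i => pt_hom _ _ (hF i) _, ?_, ?_⟩
  · intro i
    apply Subtype.ext
    rw [hP', hGP]
    rfl
  · intro h0
    apply hs
    rw [← e1]
    have h1 := congrArg (algebraMap Qr ℝ) h0
    rw [RingHom.map_det, map_zero] at h1
    rw [← h1]
    congr 1
    ext i j
    exact (hP' _).symm
  · intro i η
    rw [pt_eval]
    exact ri_le _ _

end Pool.Agent.Q13.GM
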