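import Pool.Agent.Q13.GM.Glob

set_option autoImplicit false

/-!
Divisors with normal crossings over the rational numbers.
-/

namespace Pool.Agent.Q13.GM

open MvPolynomial Pool.Agent.W180.RR Module Topology

lemma sum_le_prod : ∀ (k : ℕ) (b : Fin (k + 1) → ℝ), (∀ i, 0 ≤ b i) → (∀ i, b i ≤ 1) →
    ∑ i, b i ≤ k + ∏ i, b i := by
  intro k
  induction k with
  | zero =>
    intro b _ _
    simp
  | succ k ih =>
    intro b h0 h1
    rw [Fin.sum_univ_succ, Fin.prod_univ_succ]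
    have h2 := ih (fun i => b i.succ) (fun i => h0 _) fun i => h1 _
    have h3 : ∏ i : Fin (k + 1), b i.succ ≤ 1 :=
      Finset.prod_le_one (fun i _ => h0 _) fun i _ => h1 _
    have h4 := h0 0
    have h5 := h1 0
    push_cast
    nlinarith

/-- the sum of bounded quantities and their product -/
lemma sum_bound {m : ℕ} (hm : 1 ≤ m) (l : Fin m → ℝ) (s : ℝ) (hs : 0 < s) (h0 : ∀ i, 0 ≤ l i)
    (h1 : ∀ i, l i ≤ s) : ∑ i, l i ≤ (m - 1) * s + (∏ i, l i) / s ^ (m - 1) := by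
  obtain ⟨k, rfl⟩ : ∃ k, m = k + 1 := ⟨m - 1, by omega⟩
  have h2 := sum_le_prod k (fun i => l i / s) (fun i => div_nonneg (h0 i) hs.le) fun i =>
    (div_le_one hs).2 (h1 i)
  rw [← Finset.sum_div, Finset.prod_div_distrib, Finset.prod_const, Finset.card_univ,
    Fintype.card_fin, div_le_iff₀ hs] at h2
  refine h2.trans (le_of_eq ?_)
  push_cast
  rw [add_mul, pow_succ]
  have h3 : s ^ k ≠ 0 := by positivity
  field_simp
  ring

section

variable {m q : ℕ} (F : Fin q → MvPolynomial (Fin (m + 1)) ℤ) (d : Fin q → ℕ)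
  (hF : ∀ i, (F i).IsHomogeneous (d i))

/-- the complex form -/
noncomputable def cf (G : MvPolynomial (Fin (m + 1)) ℤ) : MvPolynomial (Fin (m + 1)) ℂ :=
  MvPolynomial.map (Int.castRingHom ℂ) G

lemma cf_eval (G : MvPolynomial (Fin (m + 1)) ℤ) (P : Fin (m + 1) → ℝ) :
    eval (cx P) (cf G) = ((aeval P G : ℝ) : ℂ) := by
  have h := MvPolynomial.comp_aeval_apply (R := ℤ) P (Complex.ofRealHom.toIntAlgHom) G
  have h1 : (Complex.ofRealHom.toIntAlgHom : ℝ →ₐ[ℤ] ℂ) (aeval P G) = ((aeval P G : ℝ) : ℂ) := rfl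
  rw [← h1, h]
  unfold cf
  rw [eval_map]
  rfl

lemma cf_alg (G : MvPolynomial (Fin (m + 1)) ℤ) (e) : IsAlgebraic ℚ (coeff e (cf G)) := by
  unfold cf
  rw [coeff_map]
  have := isAlgebraic_algebraMap (R := ℚ) (A := ℂ) ((coeff e G : ℤ) : ℚ)
  simpa using this

lemma cf_pderiv (G : MvPolynomial (Fin (m + 1)) ℤ) (j : Fin (m + 1)) :
    pderiv j (cf G) = cf (pderiv j G) := MvPolynomial.pderiv_map

/-- normal crossings at the real points -/
def NCr : Prop := ∀ P : Fin (m + 1) → ℝ, P ≠ 0 →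
  LinearIndependent ℝ (fun (i : {i // aeval P (F i) = 0}) (j : Fin (m + 1)) =>
    aeval P (pderiv j (F i.1)))

lemma li_complex {ι : Type} [Fintype ι] {n : ℕ} {v : ι → Fin n → ℝ} (h : LinearIndependent ℝ v) :
    LinearIndependent ℂ fun i => cx (v i) := by
  rw [Fintype.linearIndependent_iff] at h ⊢
  intro g hg i
  have h1 : ∀ j, ∑ i, g i * (v i j : ℂ) = 0 := by
    intro j
    have := congrFun hg j
    simpa [cx] using this
  have hre := h (fun i => (g i).re) (by
    funext j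
    have := congrArg Complex.re (h1 j)
    simpa using this) i
  have him := h (fun i => (g i).im) (by
    funext j
    have := congrArg Complex.im (h1 j)
    simpa using this) i
  exact Complex.ext hre him

include hF in
/-- at most `m` components pass through a real point -/
lemma card_le {P : Fin (m + 1) → ℝ} (hP : P ≠ 0) (hNC : NCr F) :
    Fintype.card {i // aeval P (F i) = 0} ≤ m := by
  classical
  by_contra hcon
  push Not at hcon
  obtain ⟨e⟩ : Nonempty (Fin (m + 1) ↪ {i // aeval P (F i) = 0}) :=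
    Function.Embedding.nonempty_of_card_le (by rw [Fintype.card_fin]; omega)
  have h1 := (hNC P hP).comp e e.injective
  have h2 : IsUnit (Matrix.of fun (i : Fin (m + 1)) (j : Fin (m + 1)) =>
      aeval P (pderiv j (F (e i).1))) := Matrix.linearIndependent_rows_iff_isUnit.1 h1
  have h3 := Matrix.mulVec_injective_iff_isUnit.2 h2
  apply hP
  apply h3
  rw [Matrix.mulVec_zero]
  funext i
  exact Pool.Agent.Q13.CQ.euler (hF (e i).1) (e i).2

/-- the value at integer vectors -/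
lemma cf_rv (G : MvPolynomial (Fin (m + 1)) ℤ) (x : Fin (m + 1) → ℤ) :
    ‖eval (cx (rv x)) (cf G)‖ = |((eval x G : ℤ) : ℝ)| := by
  rw [cf_eval, Complex.norm_real, Real.norm_eq_abs]
  congr 1
  have h2 := MvPolynomial.comp_aeval_apply (R := ℤ) x ((Int.castRingHom ℝ).toIntAlgHom) G
  have h1 : ((Int.castRingHom ℝ).toIntAlgHom : ℤ →ₐ[ℤ] ℝ) (aeval x G) =
    ((aeval x G : ℤ) : ℝ) := rfl
  have h3 : (aeval x G : ℤ) = eval x G := rfl
  rw [← h3, ← h1, h2]
  rfl

lemma lam_int {δ : ℕ} {G : MvPolynomial (Fin (m + 1)) ℤ} {e : ℕ} (he : e ≤ δ)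
    {x : Fin (m + 1) → ℤ} (hx : x ≠ 0) (hGx : eval x G ≠ 0) :
    lam (cf G) e x ≤ δ * Real.log (hgt x) := by
  have hH := hgt_ge_one hx
  have hHp : 0 < hgt x := by linarith
  unfold lam
  rw [cf_rv]
  have h1 : (1 : ℝ) ≤ |((eval x G : ℤ) : ℝ)| := by exact_mod_cast Int.one_le_abs hGx
  rw [Real.log_div (pow_pos hHp _).ne' (by linarith), Real.log_pow]
  have h2 := Real.log_nonneg h1
  have h3 : (e : ℝ) ≤ δ := by exact_mod_cast he
  have h4 := Real.log_nonneg hH
  nlinarith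

/-- the reduction to the components through a point -/
def Dec (U : Set (Fin (m + 1) → ℝ)) : Prop :=
  ∃ C : ℝ, 0 ≤ C ∧ ∀ x : Fin (m + 1) → ℤ, x ≠ 0 → (fun j => (x j : ℝ) / hgt x) ∈ U →
    (∀ i, eval x (F i) ≠ 0) → ∃ P : Fin (m + 1) → ℝ, P ≠ 0 ∧
      ∑ i, lam (cf (F i)) (d i) x ≤ ∑ i : {i // aeval P (F i) = 0}, lam (cf (F i.1)) (d i.1) x + C

include hF in
lemma cf_hom (i : Fin q) : (cf (F i)).IsHomogeneous (d i) := (hF i).map _

include hF in
lemma dec_loc (ξ : Fin (m + 1) → ℝ) (hξ : ξ ≠ 0) : ∃ U ∈ 𝓝 ξ, Dec F d U := by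
  classical
  have hO : ∀ i : Fin q, ∃ U ∈ 𝓝 ξ, ∃ c : ℝ, 0 < c ∧ (aeval ξ (F i) ≠ 0 →
      ∀ η ∈ U, c ≤ ‖eval (cx η) (cf (F i))‖) := by
    intro i
    by_cases h : aeval ξ (F i) = 0
    · exact ⟨Set.univ, Filter.univ_mem, 1, one_pos, fun h' => absurd h h'⟩
    · have hcont : Continuous fun η : Fin (m + 1) → ℝ => ‖eval (cx η) (cf (F i))‖ := by
        have h1 : Continuous fun η : Fin (m + 1) → ℝ => cx η := by
          unfold cx
          fun_prop
        exact ((MvPolynomial.continuous_eval (cf (F i))).comp h1).norm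
      have hpos : 0 < ‖eval (cx ξ) (cf (F i))‖ := by
        rw [norm_pos_iff, cf_eval]
        exact_mod_cast h
      have hU : {η : Fin (m + 1) → ℝ | ‖eval (cx ξ) (cf (F i))‖ / 2 <
          ‖eval (cx η) (cf (F i))‖} ∈ 𝓝 ξ :=
        (hcont.continuousAt (x := ξ)) (lt_mem_nhds (by linarith))
      exact ⟨_, hU, ‖eval (cx ξ) (cf (F i))‖ / 2, by positivity, fun _ η hη => le_of_lt hη⟩
  choose U hU c hc hUc using hO
  refine ⟨⋂ i, U i, Filter.iInter_mem.2 hU, ∑ i, |Real.log (c i)|,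
    Finset.sum_nonneg fun i _ => abs_nonneg _, fun x hx0 hxU hxF => ⟨ξ, hξ, ?_⟩⟩
  have hsplit : ∑ i, lam (cf (F i)) (d i) x =
      ∑ i with aeval ξ (F i) = 0, lam (cf (F i)) (d i) x +
      ∑ i with ¬ aeval ξ (F i) = 0, lam (cf (F i)) (d i) x :=
    (Finset.sum_filter_add_sum_filter_not _ _ _).symm
  have h1 : ∑ i with aeval ξ (F i) = 0, lam (cf (F i)) (d i) x =
      ∑ i : {i // aeval ξ (F i) = 0}, lam (cf (F i.1)) (d i.1) x :=
    Finset.sum_subtype _ (by simp) _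
  rw [hsplit, h1]
  have h2 : ∑ i with ¬ aeval ξ (F i) = 0, lam (cf (F i)) (d i) x ≤ ∑ i, |Real.log (c i)| := by
    refine (Finset.sum_le_sum fun i hi => ?_).trans
      (Finset.sum_le_sum_of_subset_of_nonneg (Finset.filter_subset _ _)
        fun i _ _ => abs_nonneg (Real.log (c i)))
    have h3 := hUc i (Finset.mem_filter.1 hi).2 _ (Set.mem_iInter.1 hxU i)
    rw [lam_eq (cf_hom F d hF i) hx0]
    have h5 := Real.log_le_log (hc i) h3
    have h6 := neg_abs_le (Real.log (c i))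
    linarith
  linarith

include hF in
lemma dec : Dec F d (Metric.sphere 0 1) := by
  refine IsCompact.induction_on (isCompact_sphere (0 : Fin (m + 1) → ℝ) 1)
    (p := fun U => Dec F d U) ?_ ?_ ?_ ?_
  · exact ⟨0, le_rfl, fun x _ hx => absurd hx (Set.notMem_empty _)⟩
  · rintro U V hUV ⟨C, hC, h⟩
    exact ⟨C, hC, fun x hx0 hxU => h x hx0 (hUV hxU)⟩
  · rintro U V ⟨C1, hC1, h1⟩ ⟨C2, hC2, h2⟩
    refine ⟨C1 + C2, by positivity, fun x hx0 hxU hxF => ?_⟩
    rcases hxU with hxU | hxU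
    · obtain ⟨P, hP, h⟩ := h1 x hx0 hxU hxF
      exact ⟨P, hP, h.trans (by linarith)⟩
    · obtain ⟨P, hP, h⟩ := h2 x hx0 hxU hxF
      exact ⟨P, hP, h.trans (by linarith)⟩
  · intro ξ hξ
    have hξ0 : ξ ≠ 0 := by
      rintro rfl
      simp at hξ
    obtain ⟨U, hU, h⟩ := dec_loc F d hF ξ hξ0
    exact ⟨U, mem_nhdsWithin_of_mem_nhds hU, h⟩

include hF in
/-- the bound for the proximity function -/
theorem prox (hm : 1 ≤ m) (hd : ∀ i, 1 ≤ d i) (hNC : NCr F) {δ : ℕ} (hδ : 1 ≤ δ)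
    (hdδ : ∀ i, d i ≤ δ) (ε : ℝ) (hε : 0 < ε) :
    ∃ (Z : Finset (MvPolynomial (Fin (m + 1)) ℤ)) (C : ℝ), Adm Z ∧
      ∀ x : Fin (m + 1) → ℤ, x ≠ 0 → (∀ i, eval x (F i) ≠ 0) → (∀ z ∈ Z, eval x z ≠ 0) →
      ∑ i, lam (cf (F i)) (d i) x ≤
        ((m - 1) * δ + (1 + 1 / (m : ℝ)) ^ m / δ ^ (m - 1) + ε) * Real.log (hgt x) + C := by
  classical
  have hδ' : (1 : ℝ) ≤ δ := by exact_mod_cast hδ
  have hm' : (1 : ℝ) ≤ m := by exact_mod_cast hm
  obtain ⟨C0, hC0, hdec⟩ := dec F d hF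
  -- the inequality for each set of m components
  have hgeo : ∀ e : Fin m ↪ Fin q, ∃ (Z : Finset (MvPolynomial (Fin (m + 1)) ℤ)) (C : ℝ),
      Adm Z ∧ 0 ≤ C ∧ ∀ x : Fin (m + 1) → ℤ, x ≠ 0 →
      (∀ i, eval (cx (rv x)) (cf (F (e i))) ≠ 0) → (∀ z ∈ Z, eval x z ≠ 0) →
      ∏ i, max 0 (lam (cf (F (e i))) (d (e i)) x) ≤
        ((1 + 1 / (m : ℝ)) ^ m + ε) * Real.log (hgt x) ^ m + C := by
    intro e
    refine geom (F := fun i => cf (F (e i))) (d := fun i => d (e i)) hm (fun i => hd _)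
      (fun i => cf_hom F d hF _) (fun i e' => cf_alg _ e') ?_ ε hε
    intro P hP hPe
    have h1 : ∀ i, aeval P (F (e i)) = 0 := by
      intro i
      have := hPe i
      rw [cf_eval] at this
      exact_mod_cast this
    have h2 := (hNC P hP).comp (fun i : Fin m => (⟨e i, h1 i⟩ : {i // aeval P (F i) = 0}))
      (fun i j hij => e.injective (congrArg Subtype.val hij))
    have h3 := li_complex h2
    convert h3 using 1
    funext i j
    rw [cf_pderiv, cf_eval]
    rfl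
  choose Z C hZ hC hg using hgeo
  obtain ⟨C1, hC1, hb⟩ := bdd_small (fun x => ∑ i, lam (cf (F i)) (d i) x) 1
  refine ⟨Finset.univ.biUnion Z, C0 + C1 + ∑ e, C e, ?_, ?_⟩
  · intro z hz
    obtain ⟨e, -, he⟩ := Finset.mem_biUnion.1 hz
    exact hZ e z he
  intro x hx0 hxF hxZ
  have hSC : 0 ≤ ∑ e, C e := Finset.sum_nonneg fun e _ => hC e
  have hH := hgt_ge_one hx0
  have hHp : 0 < hgt x := by linarith
  have hh0 := Real.log_nonneg hH
  have hcoef : 0 ≤ (m - 1) * (δ : ℝ) + (1 + 1 / (m : ℝ)) ^ m / δ ^ (m - 1) + ε := by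
    have : 0 ≤ (m - 1) * (δ : ℝ) := mul_nonneg (by linarith) (by linarith)
    positivity
  rcases lt_or_ge (Real.log (hgt x)) 1 with hh | hh
  · have h1 := hb x hx0 hh
    have h2 := mul_nonneg hcoef hh0
    linarith
  obtain ⟨P, hP, hPx⟩ := hdec x hx0 (Pool.Agent.Q13.CQ.mem_sphere hx0) hxF
  set h := Real.log (hgt x) with hh'
  have hcard := card_le F d hF hP hNC
  have hlam : ∀ i, lam (cf (F i)) (d i) x ≤ δ * h := fun i => lam_int (hdδ i) hx0 (hxF i)
  have hδh : 0 < δ * h := by positivity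
  rcases hcard.lt_or_eq with hlt | heq
  · have h1 : ∑ i : {i // aeval P (F i) = 0}, lam (cf (F i.1)) (d i.1) x ≤ (m - 1) * (δ * h) := by
      calc ∑ i : {i // aeval P (F i) = 0}, lam (cf (F i.1)) (d i.1) x ≤
            ∑ _i : {i // aeval P (F i) = 0}, δ * h := Finset.sum_le_sum fun i _ => hlam i.1
        _ = (Fintype.card {i // aeval P (F i) = 0}) * (δ * h) := by
          rw [Finset.sum_const, Finset.card_univ, nsmul_eq_mul]
        _ ≤ (m - 1) * (δ * h) := by
          apply mul_le_mul_of_nonneg_right _ hδh.le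
          have : ((Fintype.card {i // aeval P (F i) = 0} + 1 : ℕ) : ℝ) ≤ m := by exact_mod_cast hlt
          push_cast at this
          linarith
    have h2 : 0 ≤ ((1 + 1 / (m : ℝ)) ^ m / δ ^ (m - 1) + ε) * h := by positivity
    linarith
  · -- exactly m components
    let e' : Fin m ≃ {i // aeval P (F i) = 0} := (Fintype.equivFinOfCardEq heq).symm
    let e : Fin m ↪ Fin q := e'.toEmbedding.trans (Function.Embedding.subtype _)
    have h1 : ∑ i : {i // aeval P (F i) = 0}, lam (cf (F i.1)) (d i.1) x =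
        ∑ i, lam (cf (F (e i))) (d (e i)) x :=
      (Equiv.sum_comp e' fun i => lam (cf (F i.1)) (d i.1) x).symm
    have h2 : ∑ i, lam (cf (F (e i))) (d (e i)) x ≤
        ∑ i, max 0 (lam (cf (F (e i))) (d (e i)) x) :=
      Finset.sum_le_sum fun i _ => le_max_right _ _
    have h3 := sum_bound hm (fun i => max 0 (lam (cf (F (e i))) (d (e i)) x)) (δ * h) hδh
      (fun i => le_max_left _ _) (fun i => max_le hδh.le (hlam _))
    have h4 := hg e x hx0 (by
      intro i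
      rw [← norm_pos_iff, cf_rv, abs_pos]
      exact_mod_cast hxF (e i)) (fun z hz => hxZ z (Finset.mem_biUnion.2 ⟨e, Finset.mem_univ _, hz⟩))
    have h5 : (∏ i, max 0 (lam (cf (F (e i))) (d (e i)) x)) / (δ * h) ^ (m - 1) ≤
        (((1 + 1 / (m : ℝ)) ^ m + ε) * h ^ m + C e) / (δ * h) ^ (m - 1) :=
      div_le_div_of_nonneg_right h4 (by positivity)
    have h6 : (((1 + 1 / (m : ℝ)) ^ m + ε) * h ^ m + C e) / (δ * h) ^ (m - 1) ≤
        ((1 + 1 / (m : ℝ)) ^ m / δ ^ (m - 1) + ε) * h + C e := by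
      rw [add_div]
      apply add_le_add
      · have e1 : h ^ m = h * h ^ (m - 1) := by
          rw [← pow_succ']
          congr 1
          omega
        rw [e1, mul_pow, ← mul_assoc, mul_div_mul_right _ _ (by positivity)]
        rw [mul_div_right_comm]
        apply mul_le_mul_of_nonneg_right _ (by linarith)
        rw [add_div]
        have h7 : ε / (δ : ℝ) ^ (m - 1) ≤ ε := div_le_self hε.le (one_le_pow₀ hδ')
        linarith
      · apply div_le_self (hC e)
        exact one_le_pow₀ (one_le_mul_of_one_le_of_one_le hδ' hh)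
    have h7 : C e ≤ ∑ e, C e := Finset.single_le_sum (fun e _ => hC e) (Finset.mem_univ e)
    have h8 : (((m : ℝ) - 1) * δ + (1 + 1 / (m : ℝ)) ^ m / δ ^ (m - 1) + ε) * h =
        (m - 1) * (δ * h) + ((1 + 1 / (m : ℝ)) ^ m / δ ^ (m - 1) + ε) * h := by ring
    rw [h8]
    linarith

end

end Pool.Agent.Q13.GM
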