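import Mathlib

set_option autoImplicit false

/-!
Expansions of polynomials in local parameters at a point.
-/

namespace Pool.Agent.Q13.GM

open MvPolynomial

section

variable {k : Type} [Field k] {n : ℕ} (P : Fin n → k)

/-- the ideal of the point `P` -/
noncomputable def mm : Ideal (MvPolynomial (Fin n) k) :=
  Ideal.span (Set.range fun j => X j - C (P j))

lemma X_sub_mem (j : Fin n) : X j - C (P j) ∈ mm P := Ideal.subset_span ⟨j, rfl⟩

lemma sub_const (f : MvPolynomial (Fin n) k) : f - C (eval P f) ∈ mm P := by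
  induction f using MvPolynomial.induction_on with
  | C a => simp
  | add f g hf hg =>
    have : f + g - C (eval P (f + g)) = (f - C (eval P f)) + (g - C (eval P g)) := by
      rw [map_add, map_add]
      ring
    rw [this]
    exact add_mem hf hg
  | mul_X f j hf =>
    have : f * X j - C (eval P (f * X j)) = (f - C (eval P f)) * X j +
        C (eval P f) * (X j - C (P j)) := by
      rw [map_mul, map_mul, eval_X]
      ring
    rw [this]
    exact add_mem (Ideal.mul_mem_right _ _ hf) (Ideal.mul_mem_left _ _ (X_sub_mem P j))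

lemma sub_lin (f : MvPolynomial (Fin n) k) :
    f - C (eval P f) - ∑ j, C (eval P (pderiv j f)) * (X j - C (P j)) ∈ mm P ^ 2 := by
  induction f using MvPolynomial.induction_on with
  | C a => simp
  | add f g hf hg =>
    have : f + g - C (eval P (f + g)) - ∑ j, C (eval P (pderiv j (f + g))) * (X j - C (P j)) =
        (f - C (eval P f) - ∑ j, C (eval P (pderiv j f)) * (X j - C (P j))) +
        (g - C (eval P g) - ∑ j, C (eval P (pderiv j g)) * (X j - C (P j))) := by
      simp only [map_add, add_mul, Finset.sum_add_distrib]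
      ring
    rw [this]
    exact add_mem hf hg
  | mul_X f j hf =>
    have e : ∑ c, C (eval P (pderiv c (f * X j))) * (X c - C (P c)) =
        (∑ c, C (eval P (pderiv c f)) * (X c - C (P c))) * C (P j) +
          C (eval P f) * (X j - C (P j)) := by
      have e2 : ∀ c, C (eval P (pderiv c (f * X j))) * (X c - C (P c)) =
          C (eval P (pderiv c f)) * (X c - C (P c)) * C (P j) +
            (if c = j then C (eval P f) * (X c - C (P c)) else 0) := by
        intro c
        rw [pderiv_mul, map_add, map_mul, map_mul, eval_X]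
        by_cases h : c = j
        · subst h
          rw [pderiv_X_self, map_one, if_pos rfl, map_add, map_mul, map_mul, map_one]
          ring
        · rw [pderiv_X_of_ne (Ne.symm h), map_zero, if_neg h, map_add, map_mul, map_mul, map_zero]
          ring
      simp_rw [e2]
      rw [Finset.sum_add_distrib, Finset.sum_mul, Finset.sum_ite_eq' Finset.univ j,
        if_pos (Finset.mem_univ _)]
    have : f * X j - C (eval P (f * X j)) -
        ∑ c, C (eval P (pderiv c (f * X j))) * (X c - C (P c)) =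
        (f - C (eval P f) - ∑ c, C (eval P (pderiv c f)) * (X c - C (P c))) * C (P j) +
        (f - C (eval P f)) * (X j - C (P j)) := by
      rw [e, map_mul, map_mul, eval_X]
      ring
    rw [this]
    refine add_mem (Ideal.mul_mem_right _ _ hf) ?_
    rw [sq]
    exact Ideal.mul_mem_mul (sub_const P f) (X_sub_mem P j)

variable {P} {u : Fin n → MvPolynomial (Fin n) k} (hu : ∀ i, eval P (u i) = 0)
  (hJ : (Matrix.of fun i j => eval P (pderiv j (u i))).det ≠ 0)

include hu in
lemma u_mem (i : Fin n) : u i ∈ mm P := by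
  have := sub_const P (u i)
  rwa [hu, map_zero, sub_zero] at this

include hu hJ in
lemma X_sub_exp : ∃ B : Fin n → Fin n → k, ∀ j,
    X j - C (P j) - ∑ i, C (B j i) * u i ∈ mm P ^ 2 := by
  set J : Matrix (Fin n) (Fin n) k := Matrix.of fun i j => eval P (pderiv j (u i)) with hJdef
  refine ⟨fun j i => J⁻¹ j i, fun j => ?_⟩
  have h1 : ∀ i, C (J⁻¹ j i) * (u i - ∑ l, C (J i l) * (X l - C (P l))) ∈ mm P ^ 2 := by
    intro i
    apply Ideal.mul_mem_left
    have := sub_lin P (u i)
    rwa [hu, map_zero, sub_zero] at this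
  have h2 := sum_mem (S := mm P ^ 2) (t := Finset.univ) fun i _ => h1 i
  have h3 : ∑ i, C (J⁻¹ j i) * (u i - ∑ l, C (J i l) * (X l - C (P l))) =
      -(X j - C (P j) - ∑ i, C (J⁻¹ j i) * u i) := by
    simp_rw [mul_sub (C _) (u _), Finset.sum_sub_distrib]
    have h4 : ∑ i, C (J⁻¹ j i) * ∑ l, C (J i l) * (X l - C (P l)) = X j - C (P j) := by
      simp_rw [Finset.mul_sum]
      rw [Finset.sum_comm]
      have h5 : ∀ l, ∑ i, C (J⁻¹ j i) * (C (J i l) * (X l - C (P l) : MvPolynomial (Fin n) k)) =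
          if j = l then (X l - C (P l)) else 0 := by
        intro l
        have h6 : ∑ i, J⁻¹ j i * J i l = if j = l then 1 else 0 := by
          have := congrFun (congrFun (Matrix.nonsing_inv_mul J (isUnit_iff_ne_zero.2 hJ)) j) l
          rw [Matrix.mul_apply, Matrix.one_apply] at this
          exact this
        have h7 : ∑ i, C (J⁻¹ j i) * (C (J i l) * (X l - C (P l) : MvPolynomial (Fin n) k)) =
            C (∑ i, J⁻¹ j i * J i l) * (X l - C (P l)) := by
          rw [map_sum, Finset.sum_mul]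
          refine Finset.sum_congr rfl fun i _ => ?_
          rw [map_mul]
          ring
        rw [h7, h6]
        split_ifs
        · rw [map_one, one_mul]
        · rw [map_zero, zero_mul]
      rw [Finset.sum_congr rfl fun l _ => h5 l, Finset.sum_ite_eq Finset.univ j,
        if_pos (Finset.mem_univ _)]
    rw [h4]
    ring
  rw [h3] at h2
  exact neg_mem_iff.1 h2

include hu hJ in
/-- elements of the ideal -/
lemma exp_one (h : MvPolynomial (Fin n) k) (hh : h ∈ mm P) : ∃ Q : MvPolynomial (Fin n) k,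
    h - aeval u Q ∈ mm P ^ 2 := by
  obtain ⟨B, hB⟩ := X_sub_exp hu hJ
  unfold mm at hh
  induction hh using Submodule.span_induction with
  | mem x hx =>
    obtain ⟨j, rfl⟩ := hx
    refine ⟨∑ i, C (B j i) * X i, ?_⟩
    have e : aeval u (∑ i, C (B j i) * X i) = ∑ i, C (B j i) * u i := by
      rw [map_sum]
      refine Finset.sum_congr rfl fun i _ => ?_
      rw [map_mul, aeval_C, aeval_X]
      rfl
    rw [e]
    exact hB j
  | zero => exact ⟨0, by simp⟩
  | add x y _ _ hx hy =>
    obtain ⟨Q1, h1⟩ := hx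
    obtain ⟨Q2, h2⟩ := hy
    refine ⟨Q1 + Q2, ?_⟩
    have : x + y - aeval u (Q1 + Q2) = (x - aeval u Q1) + (y - aeval u Q2) := by
      rw [map_add]
      ring
    rw [this]
    exact add_mem h1 h2
  | smul a x hx' hx =>
    obtain ⟨Q1, h1⟩ := hx
    have hx'' : x ∈ mm P := hx'
    refine ⟨C (eval P a) * Q1, ?_⟩
    have : a • x - aeval u (C (eval P a) * Q1) =
        (a - C (eval P a)) * x + C (eval P a) * (x - aeval u Q1) := by
      rw [map_mul, aeval_C, smul_eq_mul]
      have : algebraMap k (MvPolynomial (Fin n) k) (eval P a) = C (eval P a) := rfl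
      rw [this]
      ring
    rw [this]
    refine add_mem ?_ (Ideal.mul_mem_left _ _ h1)
    rw [sq]
    exact Ideal.mul_mem_mul (sub_const P a) hx''

include hu hJ in
lemma exp_pow (r : ℕ) : ∀ g ∈ mm P ^ r, ∃ Q : MvPolynomial (Fin n) k,
    g - aeval u Q ∈ mm P ^ (r + 1) := by
  induction r with
  | zero =>
    intro g _
    refine ⟨C (eval P g), ?_⟩
    rw [zero_add, pow_one, aeval_C]
    exact sub_const P g
  | succ r ih =>
    intro g hg
    rw [pow_succ] at hg
    refine Submodule.mul_induction_on hg ?_ ?_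
    · intro g1 hg1 h hh
      obtain ⟨Q1, h1⟩ := ih g1 hg1
      obtain ⟨Q2, h2⟩ := exp_one hu hJ h hh
      refine ⟨Q1 * Q2, ?_⟩
      have hQ1 : aeval u Q1 ∈ mm P ^ r := by
        have : aeval u Q1 = g1 - (g1 - aeval u Q1) := by ring
        rw [this]
        exact sub_mem hg1 (Ideal.pow_le_pow_right (Nat.le_succ r) h1)
      have : g1 * h - aeval u (Q1 * Q2) = (g1 - aeval u Q1) * h +
          aeval u Q1 * (h - aeval u Q2) := by
        rw [map_mul]
        ring
      rw [this]
      refine add_mem ?_ ?_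
      · rw [pow_succ _ (r + 1)]
        exact Ideal.mul_mem_mul h1 hh
      · have : r + 1 + 1 = r + 2 := rfl
        rw [this, pow_add]
        exact Ideal.mul_mem_mul hQ1 h2
    · intro x y hx hy
      obtain ⟨Q1, h1⟩ := hx
      obtain ⟨Q2, h2⟩ := hy
      refine ⟨Q1 + Q2, ?_⟩
      have : x + y - aeval u (Q1 + Q2) = (x - aeval u Q1) + (y - aeval u Q2) := by
        rw [map_add]
        ring
      rw [this]
      exact add_mem h1 h2

include hu hJ in
/-- the expansion of a polynomial in local parameters -/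
theorem exp_all (f : MvPolynomial (Fin n) k) (r : ℕ) : ∃ Q : MvPolynomial (Fin n) k,
    f - aeval u Q ∈ mm P ^ r := by
  induction r with
  | zero => exact ⟨0, by simp⟩
  | succ r ih =>
    obtain ⟨Q, hQ⟩ := ih
    obtain ⟨Q', hQ'⟩ := exp_pow hu hJ r _ hQ
    refine ⟨Q + Q', ?_⟩
    have : f - aeval u (Q + Q') = f - aeval u Q - aeval u Q' := by
      rw [map_add]
      ring
    rw [this]
    exact hQ'

end

section

variable {k : Type} [Field k] [Algebra k ℝ] {n : ℕ}

/-- the real point -/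
noncomputable def rp (P : Fin n → k) : Fin n → ℝ := fun j => algebraMap k ℝ (P j)

lemma aeval_cont (f : MvPolynomial (Fin n) k) : Continuous fun η : Fin n → ℝ => aeval η f := by
  have : (fun η : Fin n → ℝ => aeval η f) = fun η : Fin n → ℝ =>
      MvPolynomial.eval η (MvPolynomial.map (algebraMap k ℝ) f) := by
    funext η
    rw [MvPolynomial.eval_map]
    rfl
  rw [this]
  exact MvPolynomial.continuous_eval _

lemma ball_bound (P : Fin n → ℝ) (f : MvPolynomial (Fin n) k) : ∃ C : ℝ, 0 ≤ C ∧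
    ∀ η : Fin n → ℝ, ‖η - P‖ ≤ 1 → |aeval η f| ≤ C := by
  obtain ⟨C, hC⟩ := (isCompact_closedBall P 1).exists_bound_of_continuousOn
    (aeval_cont f).continuousOn
  refine ⟨max C 0, le_max_right _ _, fun η hη => ?_⟩
  have := hC η (by rwa [Metric.mem_closedBall, dist_eq_norm])
  exact this.trans (le_max_left _ _)

lemma mm_bound (P : Fin n → k) (g : MvPolynomial (Fin n) k) (hg : g ∈ mm P) : ∃ C : ℝ, 0 ≤ C ∧
    ∀ η : Fin n → ℝ, ‖η - rp P‖ ≤ 1 → |aeval η g| ≤ C * ‖η - rp P‖ := by
  unfold mm at hg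
  induction hg using Submodule.span_induction with
  | mem x hx =>
    obtain ⟨j, rfl⟩ := hx
    refine ⟨1, zero_le_one, fun η _ => ?_⟩
    rw [map_sub, aeval_X, aeval_C, one_mul]
    exact norm_le_pi_norm (η - rp P) j
  | zero => exact ⟨0, le_rfl, fun η _ => by simp⟩
  | add x y _ _ hx hy =>
    obtain ⟨C1, hC1, h1⟩ := hx
    obtain ⟨C2, hC2, h2⟩ := hy
    refine ⟨C1 + C2, by positivity, fun η hη => ?_⟩
    rw [map_add, add_mul]
    exact (abs_add_le _ _).trans (add_le_add (h1 η hη) (h2 η hη))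
  | smul a x _ hx =>
    obtain ⟨C1, hC1, h1⟩ := hx
    obtain ⟨C2, hC2, h2⟩ := ball_bound (rp P) a
    refine ⟨C2 * C1, by positivity, fun η hη => ?_⟩
    rw [smul_eq_mul, map_mul, abs_mul, mul_assoc]
    exact mul_le_mul (h2 η hη) (h1 η hη) (abs_nonneg _) hC2

lemma pow_bound (P : Fin n → k) (r : ℕ) : ∀ g ∈ mm P ^ r, ∃ C : ℝ, 0 ≤ C ∧
    ∀ η : Fin n → ℝ, ‖η - rp P‖ ≤ 1 → |aeval η g| ≤ C * ‖η - rp P‖ ^ r := by
  induction r with
  | zero =>
    intro g _
    obtain ⟨C, hC, h⟩ := ball_bound (rp P) g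
    exact ⟨C, hC, fun η hη => by rw [pow_zero, mul_one]; exact h η hη⟩
  | succ r ih =>
    intro g hg
    rw [pow_succ] at hg
    refine Submodule.mul_induction_on hg ?_ ?_
    · intro g1 hg1 h hh
      obtain ⟨C1, hC1, h1⟩ := ih g1 hg1
      obtain ⟨C2, hC2, h2⟩ := mm_bound P h hh
      refine ⟨C1 * C2, by positivity, fun η hη => ?_⟩
      rw [map_mul, abs_mul]
      calc _ ≤ (C1 * ‖η - rp P‖ ^ r) * (C2 * ‖η - rp P‖) :=
            mul_le_mul (h1 η hη) (h2 η hη) (abs_nonneg _) (by positivity)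
        _ = _ := by ring
    · intro x y hx hy
      obtain ⟨C1, hC1, h1⟩ := hx
      obtain ⟨C2, hC2, h2⟩ := hy
      refine ⟨C1 + C2, by positivity, fun η hη => ?_⟩
      rw [map_add, add_mul]
      exact (abs_add_le _ _).trans (add_le_add (h1 η hη) (h2 η hη))

/-- the box of exponents -/
def Bx (n R : ℕ) : Finset (Fin n → ℕ) := Fintype.piFinset fun _ => Finset.range R

lemma mem_Bx {n R : ℕ} {μ : Fin n → ℕ} : μ ∈ Bx n R ↔ ∀ i, μ i < R := by
  simp [Bx]

lemma not_mem_Bx {n R : ℕ} {μ : Fin n → ℕ} (h : μ ∉ Bx n R) : R ≤ ∑ i, μ i := by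
  rw [mem_Bx] at h
  push Not at h
  obtain ⟨i, hi⟩ := h
  exact hi.trans (Finset.single_le_sum (fun i _ => Nat.zero_le _) (Finset.mem_univ i))

variable {P : Fin n → k} {u : Fin n → MvPolynomial (Fin n) k} (hu : ∀ i, eval P (u i) = 0)
  (hJ : (Matrix.of fun i j => eval P (pderiv j (u i))).det ≠ 0)

include hu hJ in
theorem expand (f : MvPolynomial (Fin n) k) (R : ℕ) : ∃ (c : (Fin n → ℕ) → k) (C : ℝ), 0 ≤ C ∧
    ∀ η : Fin n → ℝ, ‖η - rp P‖ ≤ 1 →
      |aeval η f - ∑ μ ∈ Bx n R, algebraMap k ℝ (c μ) * ∏ i, aeval η (u i) ^ μ i| ≤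
        C * ‖η - rp P‖ ^ R := by
  classical
  obtain ⟨Q, hQ⟩ := exp_all hu hJ f R
  obtain ⟨C1, hC1, h1⟩ := pow_bound P R _ hQ
  have hui : ∀ i, ∃ C : ℝ, 0 ≤ C ∧ ∀ η : Fin n → ℝ, ‖η - rp P‖ ≤ 1 →
      |aeval η (u i)| ≤ C * ‖η - rp P‖ := fun i => mm_bound P (u i) (u_mem hu i)
  choose D hD hDu using hui
  set D0 : ℝ := 1 + ∑ i, D i with hD0
  have hDD : ∀ i, D i ≤ D0 := fun i => by
    have := Finset.single_le_sum (f := D) (fun i _ => hD i) (Finset.mem_univ i)
    linarith
  have hD01 : 1 ≤ D0 := by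
    have := Finset.sum_nonneg fun i (_ : i ∈ Finset.univ) => hD i
    linarith
  let c : (Fin n → ℕ) → k := fun μ => coeff (Finsupp.equivFunOnFinite.symm μ) Q
  refine ⟨c, C1 + ∑ s ∈ Q.support, |algebraMap k ℝ (coeff s Q)| * D0 ^ (∑ i, s i), by positivity,
    fun η hη => ?_⟩
  have h2 := h1 η hη
  have e1 : aeval η (f - aeval u Q) = aeval η f - aeval (fun i => aeval η (u i)) Q := by
    rw [map_sub]
    congr 1
    rw [← AlgHom.comp_apply]
    congr 1
    apply MvPolynomial.algHom_ext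
    intro i
    simp
  rw [e1] at h2
  have e2 : aeval (fun i => aeval η (u i)) Q =
      ∑ s ∈ Q.support, algebraMap k ℝ (coeff s Q) * ∏ i, aeval η (u i) ^ s i := by
    rw [aeval_def, eval₂_eq']
  have e3 : ∑ μ ∈ Bx n R, algebraMap k ℝ (c μ) * ∏ i, aeval η (u i) ^ μ i =
      ∑ s ∈ Q.support.filter (fun s : Fin n →₀ ℕ => ⇑s ∈ Bx n R),
        algebraMap k ℝ (coeff s Q) * ∏ i, aeval η (u i) ^ s i := by
    symm
    have h3 : ∀ s : Fin n →₀ ℕ, algebraMap k ℝ (coeff s Q) * ∏ i, aeval η (u i) ^ s i =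
        (fun μ : Fin n → ℕ => algebraMap k ℝ (c μ) * ∏ i, aeval η (u i) ^ μ i) s := by
      intro s
      simp only [c]
      congr 3
      ext i
      rfl
    rw [Finset.sum_congr rfl fun s _ => h3 s,
      ← Finset.sum_image (f := fun μ : Fin n → ℕ =>
        algebraMap k ℝ (c μ) * ∏ i, aeval η (u i) ^ μ i)
        (g := fun s : Fin n →₀ ℕ => (s : Fin n → ℕ)) (fun s _ t _ h => DFunLike.coe_injective h)]
    refine Finset.sum_subset ?_ fun μ hμ hμ' => ?_
    · intro μ hμ
      obtain ⟨s, hs, rfl⟩ := Finset.mem_image.1 hμ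
      exact (Finset.mem_filter.1 hs).2
    · have : c μ = 0 := by
        by_contra hne
        apply hμ'
        refine Finset.mem_image.2 ⟨Finsupp.equivFunOnFinite.symm μ, ?_, rfl⟩
        rw [Finset.mem_filter]
        exact ⟨mem_support_iff.2 hne, hμ⟩
      rw [this, map_zero, zero_mul]
  have e4 : aeval η f - ∑ μ ∈ Bx n R, algebraMap k ℝ (c μ) * ∏ i, aeval η (u i) ^ μ i =
      (aeval η f - aeval (fun i => aeval η (u i)) Q) +
      ∑ s ∈ Q.support.filter (fun s : Fin n →₀ ℕ => ¬ ⇑s ∈ Bx n R),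
        algebraMap k ℝ (coeff s Q) * ∏ i, aeval η (u i) ^ s i := by
    rw [e3, e2, ← Finset.sum_filter_add_sum_filter_not Q.support
      (fun s : Fin n →₀ ℕ => ⇑s ∈ Bx n R)]
    ring
  rw [e4, add_mul]
  refine (abs_add_le _ _).trans (add_le_add h2 ?_)
  rw [Finset.sum_mul]
  refine (Finset.abs_sum_le_sum_abs _ _).trans ?_
  refine (Finset.sum_le_sum fun s hs => ?_).trans
    (Finset.sum_le_sum_of_subset_of_nonneg (Finset.filter_subset _ _) fun s _ _ => by positivity)
  rw [abs_mul, mul_assoc]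
  apply mul_le_mul_of_nonneg_left _ (abs_nonneg _)
  rw [Finset.abs_prod]
  have h5 : ∀ i, |aeval η (u i) ^ s i| ≤ (D0 * ‖η - rp P‖) ^ s i := by
    intro i
    rw [abs_pow]
    apply pow_le_pow_left₀ (abs_nonneg _)
    exact (hDu i η hη).trans (mul_le_mul_of_nonneg_right (hDD i) (norm_nonneg _))
  refine (Finset.prod_le_prod (fun i _ => abs_nonneg _) fun i _ => h5 i).trans ?_
  rw [Finset.prod_pow_eq_pow_sum, mul_pow]
  apply mul_le_mul_of_nonneg_left _ (by positivity)
  exact pow_le_pow_of_le_one (norm_nonneg _) hη (not_mem_Bx (Finset.mem_filter.1 hs).2)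

include hu hJ in
/-- the distance is bounded by the local parameters -/
theorem dist_le : ∃ C δ : ℝ, 0 ≤ C ∧ 0 < δ ∧ δ ≤ 1 ∧ ∀ η : Fin n → ℝ, ‖η - rp P‖ ≤ δ →
    ∀ A : ℝ, (∀ i, |aeval η (u i)| ≤ A) → ‖η - rp P‖ ≤ C * A := by
  obtain ⟨B, hB⟩ := X_sub_exp hu hJ
  have h1 : ∀ j, ∃ C : ℝ, 0 ≤ C ∧ ∀ η : Fin n → ℝ, ‖η - rp P‖ ≤ 1 →
      |aeval η (X j - MvPolynomial.C (P j) - ∑ i, MvPolynomial.C (B j i) * u i)| ≤
        C * ‖η - rp P‖ ^ 2 :=
    fun j => pow_bound P 2 _ (hB j)
  choose D hD hDu using h1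
  set D0 : ℝ := 1 + ∑ i, D i with hD0
  have hDD : ∀ i, D i ≤ D0 := fun i => by
    have := Finset.single_le_sum (f := D) (fun i _ => hD i) (Finset.mem_univ i)
    linarith
  have hD01 : 1 ≤ D0 := by
    have := Finset.sum_nonneg fun i (_ : i ∈ Finset.univ) => hD i
    linarith
  set E : ℝ := ∑ j, ∑ i, |algebraMap k ℝ (B j i)| with hE
  refine ⟨2 * E, 1 / (2 * D0), by positivity, by positivity, ?_, fun η hη A hA => ?_⟩
  · rw [div_le_one (by positivity)]
    linarith
  have hη1 : ‖η - rp P‖ ≤ 1 := hη.trans (by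
    rw [div_le_one (by positivity)]
    linarith)
  rcases isEmpty_or_nonempty (Fin n) with he | ⟨⟨i0⟩⟩
  · have : η - rp P = 0 := Subsingleton.elim _ _
    rw [this, norm_zero]
    have : E = 0 := by
      rw [hE]
      exact Finset.sum_of_isEmpty _
    rw [this]
    simp
  have hA0 : 0 ≤ A := (abs_nonneg _).trans (hA i0)
  have h2 : ‖η - rp P‖ ≤ E * A + D0 * ‖η - rp P‖ ^ 2 := by
    rw [pi_norm_le_iff_of_nonneg (by positivity)]
    intro j
    have h3 := hDu j η hη1
    have e : aeval η (X j - C (P j) - ∑ i, C (B j i) * u i) =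
        (η - rp P) j - ∑ i, algebraMap k ℝ (B j i) * aeval η (u i) := by
      simp only [map_sub, aeval_X, aeval_C, map_sum, map_mul]
      rfl
    rw [e] at h3
    have h4 : |∑ i, algebraMap k ℝ (B j i) * aeval η (u i)| ≤ E * A := by
      refine (Finset.abs_sum_le_sum_abs _ _).trans ?_
      calc ∑ i, |algebraMap k ℝ (B j i) * aeval η (u i)| ≤
            ∑ i, |algebraMap k ℝ (B j i)| * A := by
              refine Finset.sum_le_sum fun i _ => ?_
              rw [abs_mul]
              exact mul_le_mul_of_nonneg_left (hA i) (abs_nonneg _)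
        _ = (∑ i, |algebraMap k ℝ (B j i)|) * A := by rw [Finset.sum_mul]
        _ ≤ E * A := by
            apply mul_le_mul_of_nonneg_right _ hA0
            exact Finset.single_le_sum (f := fun j => ∑ i, |algebraMap k ℝ (B j i)|)
              (fun j _ => Finset.sum_nonneg fun i _ => abs_nonneg _) (Finset.mem_univ j)
    have h5 : |(η - rp P) j| ≤ |∑ i, algebraMap k ℝ (B j i) * aeval η (u i)| +
        |(η - rp P) j - ∑ i, algebraMap k ℝ (B j i) * aeval η (u i)| := by
      have := abs_add_le (∑ i, algebraMap k ℝ (B j i) * aeval η (u i))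
        ((η - rp P) j - ∑ i, algebraMap k ℝ (B j i) * aeval η (u i))
      rwa [add_sub_cancel] at this
    rw [Real.norm_eq_abs]
    have h6 : D j * ‖η - rp P‖ ^ 2 ≤ D0 * ‖η - rp P‖ ^ 2 :=
      mul_le_mul_of_nonneg_right (hDD j) (by positivity)
    linarith
  have h7 : D0 * ‖η - rp P‖ ^ 2 ≤ ‖η - rp P‖ / 2 := by
    rw [le_div_iff₀ (by positivity)] at hη
    have h8 : 0 ≤ ‖η - rp P‖ := norm_nonneg _
    nlinarith
  linarith

end

end Pool.Agent.Q13.GM
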