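import Mathlib

set_option autoImplicit false

/-!
Bases adapted to a sequence of linear functionals.
-/

namespace Pool.Agent.Q13.GM

open Module

theorem adapted (k : Type) [Field k] (K : ℕ) : ∀ (V : Type) [AddCommGroup V] [Module k V]
    [FiniteDimensional k V] (φ : Fin K → V →ₗ[k] k), ∃ (n : ℕ) (b : Basis (Fin n) k V)
      (lead : Fin n → ℕ), (∀ i, lead i ≤ K) ∧ (∀ i j, lead i = lead j → lead i < K → i = j) ∧
      ∀ i, ∀ r : Fin K, (r : ℕ) < lead i → φ r (b i) = 0 := by
  induction K with
  | zero =>
    intro V _ _ _ φ
    exact ⟨finrank k V, finBasis k V, fun _ => 0, fun _ => le_rfl, fun _ _ _ h =>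
      absurd h (lt_irrefl 0), fun _ r => r.elim0⟩
  | succ K ih =>
    intro V _ _ _ φ
    by_cases h0 : φ 0 = 0
    · obtain ⟨n, b, lead, h1, h2, h3⟩ := ih V (fun r => φ r.succ)
      refine ⟨n, b, fun i => lead i + 1, fun i => Nat.succ_le_succ (h1 i), fun i j hij hlt =>
        h2 i j (by
          have : lead i + 1 = lead j + 1 := hij
          omega) (by
          have : lead i + 1 < K + 1 := hlt
          omega), fun i r hr => ?_⟩
      have hr : (r : ℕ) < lead i + 1 := hr
      refine Fin.cases (fun _ => ?_) (fun r hr => ?_) r hr
      · rw [h0, LinearMap.zero_apply]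
      · exact h3 i r (by
          rw [Fin.val_succ] at hr
          omega)
    · obtain ⟨y, hy⟩ : ∃ y, φ 0 y ≠ 0 := by
        by_contra hcon
        push Not at hcon
        exact h0 (LinearMap.ext hcon)
      obtain ⟨n, b, lead, h1, h2, h3⟩ := ih (LinearMap.ker (φ 0))
        (fun r => (φ r.succ).comp (LinearMap.ker (φ 0)).subtype)
      refine ⟨n + 1, Basis.mkFinCons y b (fun c x hx hc => ?_) (fun z => ?_),
        Fin.cons 0 (fun i => lead i + 1), ?_, ?_, ?_⟩
      · have h4 := congrArg (φ 0) hc
        rw [map_add, map_smul, LinearMap.mem_ker.1 hx, add_zero, map_zero, smul_eq_mul] at h4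
        exact (mul_eq_zero.1 h4).resolve_right hy
      · refine ⟨-(φ 0 z / φ 0 y), ?_⟩
        rw [LinearMap.mem_ker, map_add, map_smul, smul_eq_mul]
        field_simp
        ring
      · intro i
        refine Fin.cases ?_ (fun i => ?_) i
        · simp
        · simp only [Fin.cons_succ]
          exact Nat.succ_le_succ (h1 i)
      · intro i j
        refine Fin.cases ?_ (fun i => ?_) i
        · refine Fin.cases (fun _ _ => rfl) (fun j h => ?_) j
          simp only [Fin.cons_zero, Fin.cons_succ] at h
          omega
        · refine Fin.cases (fun h => ?_) (fun j h hlt => ?_) j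
          · simp only [Fin.cons_zero, Fin.cons_succ] at h
            omega
          · simp only [Fin.cons_succ] at h hlt
            rw [h2 i j (by omega) (by omega)]
      · intro i r
        rw [Basis.coe_mkFinCons]
        refine Fin.cases (fun h => ?_) (fun i => ?_) i
        · simp only [Fin.cons_zero] at h
          omega
        · refine Fin.cases (fun _ => ?_) (fun r h => ?_) r
          · simp only [Fin.cons_succ, Function.comp_apply]
            exact (b i).2
          · simp only [Fin.cons_succ, Function.comp_apply, Fin.val_succ] at h ⊢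
            exact h3 i r (by omega)

end Pool.Agent.Q13.GM
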