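import Pool.Agent.Q13.GM.Cpx
import Pool.Agent.Q13.CQ.Fin

set_option autoImplicit false

/-!
From the local inequality to the global one.
-/

namespace Pool.Agent.Q13.GM

open MvPolynomial Pool.Agent.W180.RR Module Topology

/-- the form with the given coefficients -/
noncomputable def poly {n N : ℕ} (z : Ix n N → ℤ) : MvPolynomial (Fin n) ℤ :=
  ∑ α, monomial (Finsupp.equivFunOnFinite.symm α.1) (z α)

lemma poly_eval {n N : ℕ} (z : Ix n N → ℤ) (x : Fin n → ℤ) :
    eval x (poly z) = ∑ α, z α * ver x α := by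
  unfold poly
  rw [map_sum]
  refine Finset.sum_congr rfl fun α _ => ?_
  rw [eval_monomial, Finsupp.prod_fintype _ _ (by simp)]
  rfl

lemma poly_hom {n N : ℕ} (z : Ix n N → ℤ) : (poly z).IsHomogeneous N := by
  unfold poly
  refine IsHomogeneous.sum _ _ _ fun α _ => ?_
  apply isHomogeneous_monomial
  rw [Finsupp.degree_eq_sum]
  exact Ix_sum α

lemma sym_inj {n N : ℕ} : Function.Injective
    (fun α : Ix n N => (Finsupp.equivFunOnFinite.symm α.1 : Fin n →₀ ℕ)) := by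
  intro α β h
  exact Subtype.ext (Finsupp.equivFunOnFinite.symm.injective h)

lemma poly_ne {n N : ℕ} {z : Ix n N → ℤ} (hz : z ≠ 0) : poly z ≠ 0 := by
  classical
  obtain ⟨α, hα⟩ := Function.ne_iff.1 hz
  intro h
  apply hα
  have h1 := congrArg (coeff (Finsupp.equivFunOnFinite.symm α.1)) h
  unfold poly at h1
  rw [coeff_sum, coeff_zero, Finset.sum_eq_single α] at h1
  · rwa [coeff_monomial, if_pos rfl] at h1
  · intro β _ hβ
    rw [coeff_monomial, if_neg]
    exact fun h2 => hβ (sym_inj h2)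
  · intro h2
    exact absurd (Finset.mem_univ _) h2

/-- admissible exceptional sets -/
def Adm {n : ℕ} (Z : Finset (MvPolynomial (Fin n) ℤ)) : Prop :=
  ∀ z ∈ Z, z ≠ 0 ∧ ∃ N, z.IsHomogeneous N

lemma Adm.union {n : ℕ} [DecidableEq (MvPolynomial (Fin n) ℤ)]
    {Z1 Z2 : Finset (MvPolynomial (Fin n) ℤ)} (h1 : Adm Z1) (h2 : Adm Z2) :
    Adm (Z1 ∪ Z2) := by
  intro z hz
  rcases Finset.mem_union.1 hz with h | h
  · exact h1 z h
  · exact h2 z h

lemma adm_poly {n N : ℕ} [DecidableEq (MvPolynomial (Fin n) ℤ)] {Z : Finset (Ix n N → ℤ)}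
    (h : ∀ z ∈ Z, z ≠ 0) : Adm (Z.image poly) := by
  intro z hz
  obtain ⟨w, hw, rfl⟩ := Finset.mem_image.1 hz
  exact ⟨poly_ne (h w hw), N, poly_hom w⟩

lemma aeval_ix {n N : ℕ} {G : MvPolynomial (Fin n) Qr} (hG : G.IsHomogeneous N)
    (x : Fin n → ℤ) : aeval (fun j => (x j : ℝ)) G =
      ∑ α : Ix n N, ((coeff (Finsupp.equivFunOnFinite.symm α.1) G : Qr) : ℝ) * (ver x α : ℝ) := by
  classical
  rw [aeval_def, eval₂_eq']
  have e1 : ∀ α : Ix n N, ((coeff (Finsupp.equivFunOnFinite.symm α.1) G : Qr) : ℝ) *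
      (ver x α : ℝ) = (fun e : Fin n →₀ ℕ => algebraMap Qr ℝ (coeff e G) *
        ∏ i, (x i : ℝ) ^ e i) (Finsupp.equivFunOnFinite.symm α.1) := by
    intro α
    unfold ver
    push_cast
    rfl
  rw [Finset.sum_congr rfl fun α _ => e1 α,
    ← Finset.sum_image (f := fun e : Fin n →₀ ℕ => algebraMap Qr ℝ (coeff e G) *
        ∏ i, (x i : ℝ) ^ e i)
      (g := fun α : Ix n N => (Finsupp.equivFunOnFinite.symm α.1 : Fin n →₀ ℕ))
      (fun s _ t _ h => sym_inj h)]
  refine Finset.sum_subset ?_ fun e _ he => ?_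
  · intro e he
    have h1 := hG (mem_support_iff.1 he)
    rw [Finsupp.weight_apply, Finsupp.sum_fintype _ _ (by simp)] at h1
    simp only [Pi.one_apply, smul_eq_mul, mul_one] at h1
    refine Finset.mem_image.2 ⟨⟨e, ?_⟩, Finset.mem_univ _, ?_⟩
    · rw [Finset.mem_piAntidiag]
      exact ⟨h1, fun i _ => Finset.mem_univ i⟩
    · ext i
      rfl
  · rw [notMem_support_iff.1 he, map_zero, zero_mul]

/-- lower bound for the values of real algebraic forms -/
lemma lowR {n N : ℕ} (hn : 2 ≤ n) (hN : 1 ≤ N) {G : MvPolynomial (Fin n) Qr}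
    (hG : G.IsHomogeneous N) (hG0 : G ≠ 0) :
    ∃ (Z : Finset (MvPolynomial (Fin n) ℤ)) (K : ℝ), Adm Z ∧ 0 ≤ K ∧ ∀ x : Fin n → ℤ, x ≠ 0 →
      (∀ z ∈ Z, eval x z ≠ 0) → aeval (fun j => (x j : ℝ)) G ≠ 0 ∧
      - Real.log |aeval (fun j => (x j : ℝ)) G| ≤ K * (Real.log (hgt x) + 1) := by
  classical
  have hv : (fun α : Ix n N => (coeff (Finsupp.equivFunOnFinite.symm α.1) G : Qr)) ≠ 0 := by
    obtain ⟨e, he⟩ := ne_zero_iff.1 hG0
    have h1 := hG he
    rw [Finsupp.weight_apply, Finsupp.sum_fintype _ _ (by simp)] at h1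
    simp only [Pi.one_apply, smul_eq_mul, mul_one] at h1
    intro h0
    apply he
    have h2 := congrFun h0 ⟨e, by
      rw [Finset.mem_piAntidiag]
      exact ⟨h1, fun i _ => Finset.mem_univ i⟩⟩
    have h3 : (Finsupp.equivFunOnFinite.symm (e : Fin n → ℕ) : Fin n →₀ ℕ) = e := by
      ext i
      rfl
    simp only [h3, Pi.zero_apply] at h2
    exact h2
  obtain ⟨Z, K, C, hZ, hK, h⟩ := lower hn hN _ hv
  refine ⟨Z.image poly, K + |C|, adm_poly hZ, by positivity, fun x hx0 hxZ => ?_⟩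
  have h1 := h x hx0 (fun z hz => by
    rw [← poly_eval]
    exact hxZ _ (Finset.mem_image_of_mem _ hz))
  rw [← aeval_ix hG x] at h1
  refine ⟨h1.1, h1.2.trans ?_⟩
  have hh : 0 ≤ Real.log (hgt x) := Real.log_nonneg (hgt_ge_one hx0)
  have h2 := le_abs_self C
  have h3 := abs_nonneg C
  nlinarith

/-- the real vector of an integer vector -/
def rv {n : ℕ} (x : Fin n → ℤ) : Fin n → ℝ := fun j => (x j : ℝ)

/-- the local height -/
noncomputable def lam {n : ℕ} (F : MvPolynomial (Fin n) ℂ) (d : ℕ) (x : Fin n → ℤ) : ℝ :=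
  Real.log (hgt x ^ d / ‖eval (cx (rv x)) F‖)

lemma eval_cx_smul {n d : ℕ} {F : MvPolynomial (Fin n) ℂ} (hF : F.IsHomogeneous d) (t : ℝ)
    (η : Fin n → ℝ) : ‖eval (cx fun j => t * η j) F‖ = |t| ^ d * ‖eval (cx η) F‖ := by
  have h : (cx fun j => t * η j) = fun j => (t : ℂ) * cx η j := by
    funext j
    unfold cx
    push_cast
    rfl
  rw [h, eval_hom hF, norm_mul, norm_pow, Complex.norm_real, Real.norm_eq_abs]

/-- upper bound for the local height -/
lemma lam_up {n d : ℕ} (hn : 2 ≤ n) (hd : 1 ≤ d) {F : MvPolynomial (Fin n) ℂ}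
    (hF : F.IsHomogeneous d) (hFa : ∀ e, IsAlgebraic ℚ (coeff e F)) :
    ∃ (Z : Finset (MvPolynomial (Fin n) ℤ)) (K : ℝ), Adm Z ∧ 0 ≤ K ∧ ∀ x : Fin n → ℤ, x ≠ 0 →
      (∀ z ∈ Z, eval x z ≠ 0) → eval (cx (rv x)) F ≠ 0 →
      lam F d x ≤ K * (Real.log (hgt x) + 1) := by
  classical
  by_cases hs : ∃ s, pt F hFa s ≠ 0
  · obtain ⟨s, hs⟩ := hs
    obtain ⟨Z, K, hZ, hK, h⟩ := lowR hn hd (pt_hom F hFa hF s) hs
    refine ⟨Z, K + d, hZ, by positivity, fun x hx0 hxZ hFx => ?_⟩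
    obtain ⟨h1, h2⟩ := h x hx0 hxZ
    have hH := hgt_ge_one hx0
    have hHp : 0 < hgt x := by linarith
    have h3 : |aeval (fun j => (x j : ℝ)) (pt F hFa s)| ≤ ‖eval (cx (rv x)) F‖ := by
      rw [pt_eval]
      exact ri_le _ _
    have h4 := Real.log_le_log (abs_pos.2 h1) h3
    have hh : 0 ≤ Real.log (hgt x) := Real.log_nonneg hH
    unfold lam
    rw [Real.log_div (pow_pos hHp _).ne' (norm_ne_zero_iff.2 hFx), Real.log_pow]
    have h5 : (0 : ℝ) ≤ d := Nat.cast_nonneg _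
    nlinarith
  · push Not at hs
    refine ⟨∅, 0, fun z hz => absurd hz (Finset.notMem_empty _), le_rfl, fun x hx0 _ hFx => ?_⟩
    exfalso
    apply hFx
    have h1 : ∀ s, ri s (eval (cx (rv x)) F) = 0 := by
      intro s
      rw [← pt_eval F hFa, hs, map_zero]
    exact Complex.ext (h1 true) (h1 false)

lemma lam_eq {n d : ℕ} {F : MvPolynomial (Fin n) ℂ} (hF : F.IsHomogeneous d) {x : Fin n → ℤ}
    (hx : x ≠ 0) : lam F d x = - Real.log ‖eval (cx fun j => (x j : ℝ) / hgt x) F‖ := by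
  have hH := hgt_ge_one hx
  have hHp : 0 < hgt x := by linarith
  have h1 := eval_cx_smul hF (hgt x) fun j => (x j : ℝ) / hgt x
  have h2 : (fun j => hgt x * ((x j : ℝ) / hgt x)) = rv x := by
    funext j
    unfold rv
    field_simp
  rw [h2, abs_of_pos hHp] at h1
  unfold lam
  rw [h1, ← Real.log_inv]
  congr 1
  rw [div_mul_eq_div_div, div_self (pow_pos hHp _).ne', one_div]

lemma eps_choice (m : ℕ) (ε : ℝ) (hε : 0 < ε) : ∃ t : ℝ, 0 < t ∧
    ((1 + 1 / (m : ℝ)) * (1 + 2 * t) * (1 + t)) ^ m ≤ (1 + 1 / (m : ℝ)) ^ m + ε := by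
  have hc : Continuous fun t : ℝ => ((1 + 1 / (m : ℝ)) * (1 + 2 * t) * (1 + t)) ^ m := by fun_prop
  have h1 := Metric.continuousAt_iff.1 (hc.continuousAt (x := 0)) ε hε
  obtain ⟨δ, hδ, h⟩ := h1
  refine ⟨δ / 2, by positivity, ?_⟩
  have h2 := h (x := δ / 2) (by
    rw [Real.dist_eq, sub_zero, abs_of_pos (by positivity)]
    linarith)
  rw [Real.dist_eq] at h2
  have h3 := (abs_lt.1 h2).2
  simp only [mul_zero, add_zero, mul_one] at h3
  linarith

lemma prod_small {m : ℕ} (l : Fin m → ℝ) (i : Fin m) (s K h ε : ℝ) (hl : ∀ j, 0 ≤ l j)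
    (hi : l i ≤ s) (hK : ∀ j, l j ≤ K * h) (hs : s * K ^ (m - 1) ≤ ε * h) (hh : 0 ≤ h) :
    ∏ j, l j ≤ ε * h ^ m := by
  classical
  have hm : 1 ≤ m := i.pos
  have hKh : 0 ≤ K * h := (hl i).trans (hK i)
  rw [← Finset.mul_prod_erase Finset.univ l (Finset.mem_univ i)]
  have h1 : ∏ j ∈ Finset.univ.erase i, l j ≤ (K * h) ^ (m - 1) := by
    calc ∏ j ∈ Finset.univ.erase i, l j ≤ ∏ _j ∈ Finset.univ.erase i, K * h :=
          Finset.prod_le_prod (fun j _ => hl j) fun j _ => hK j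
      _ = (K * h) ^ (m - 1) := by
        rw [Finset.prod_const, Finset.card_erase_of_mem (Finset.mem_univ _), Finset.card_univ,
          Fintype.card_fin]
  have hs0 : 0 ≤ s := (hl i).trans hi
  calc l i * ∏ j ∈ Finset.univ.erase i, l j ≤ s * (K * h) ^ (m - 1) :=
        mul_le_mul hi h1 (Finset.prod_nonneg fun j _ => hl j) hs0
    _ = (s * K ^ (m - 1)) * h ^ (m - 1) := by rw [mul_pow]; ring
    _ ≤ (ε * h) * h ^ (m - 1) := mul_le_mul_of_nonneg_right hs (by positivity)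
    _ = ε * h ^ m := by
      rw [mul_assoc, ← pow_succ']
      congr 2
      omega

section

variable {m : ℕ} (hm : 1 ≤ m) {F : Fin m → MvPolynomial (Fin (m + 1)) ℂ} {d : Fin m → ℕ}
  (hd : ∀ i, 1 ≤ d i)
  (hF : ∀ i, (F i).IsHomogeneous (d i)) (hFa : ∀ i e, IsAlgebraic ℚ (coeff e (F i)))
  (hli : ∀ P : Fin (m + 1) → ℝ, P ≠ 0 → (∀ i, eval (cx P) (F i) = 0) →
    LinearIndependent ℂ fun i j => eval (cx P) (pderiv j (F i)))

/-- the inequality on a set of directions -/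
def LocOK (F : Fin m → MvPolynomial (Fin (m + 1)) ℂ) (d : Fin m → ℕ) (ε : ℝ)
    (U : Set (Fin (m + 1) → ℝ)) : Prop :=
  ∃ (Z : Finset (MvPolynomial (Fin (m + 1)) ℤ)) (h1 : ℝ), Adm Z ∧
    ∀ x : Fin (m + 1) → ℤ, x ≠ 0 → (fun j => (x j : ℝ) / hgt x) ∈ U →
      (∀ i, eval (cx (rv x)) (F i) ≠ 0) → (∀ z ∈ Z, eval x z ≠ 0) → h1 ≤ Real.log (hgt x) →
      ∏ i, max 0 (lam (F i) (d i) x) ≤ ((1 + 1 / (m : ℝ)) ^ m + ε) * Real.log (hgt x) ^ m

include hm hd hF hFa hli in
theorem loc (ε : ℝ) (hε : 0 < ε) (ξ : Fin (m + 1) → ℝ) (hξ : ‖ξ‖ = 1) :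
    ∃ U ∈ 𝓝 ξ, LocOK F d ε U := by
  classical
  have hn : 2 ≤ m + 1 := by omega
  -- upper bounds
  choose Z1 K1 hZ1 hK1 hup using fun i => lam_up hn (hd i) (hF i) (hFa i)
  have hγ : 0 ≤ (1 + 1 / (m : ℝ)) ^ m := by positivity
  by_cases hnv : ∃ i, eval (cx ξ) (F i) ≠ 0
  · obtain ⟨i0, hi0⟩ := hnv
    have hcont : Continuous fun η : Fin (m + 1) → ℝ => ‖eval (cx η) (F i0)‖ := by
      have h1 : Continuous fun η : Fin (m + 1) → ℝ => cx η := by
        unfold cx
        fun_prop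
      exact ((MvPolynomial.continuous_eval (F i0)).comp h1).norm
    have hpos : 0 < ‖eval (cx ξ) (F i0)‖ := norm_pos_iff.2 hi0
    have hU : {η : Fin (m + 1) → ℝ | ‖eval (cx ξ) (F i0)‖ / 2 < ‖eval (cx η) (F i0)‖} ∈ 𝓝 ξ :=
      (hcont.continuousAt (x := ξ)) (lt_mem_nhds (by linarith))
    set c : ℝ := |Real.log (‖eval (cx ξ) (F i0)‖ / 2)| with hc
    set K : ℝ := 2 * ∑ i, K1 i with hK
    have hK0 : 0 ≤ K := by
      have : 0 ≤ ∑ i, K1 i := Finset.sum_nonneg fun i _ => hK1 i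
      positivity
    refine ⟨_, hU, Finset.univ.biUnion Z1, max 1 (c * K ^ (m - 1) / ε), ?_, ?_⟩
    · intro z hz
      obtain ⟨i, -, hi⟩ := Finset.mem_biUnion.1 hz
      exact hZ1 i z hi
    intro x hx0 hxU hxF hxZ hh
    set h := Real.log (hgt x) with hh'
    have hh1 : 1 ≤ h := (le_max_left _ _).trans hh
    have hh2 : c * K ^ (m - 1) ≤ ε * h := by
      have h2 := (le_max_right _ _).trans hh
      rw [div_le_iff₀ hε] at h2
      linarith
    have h3 : ∏ i, max 0 (lam (F i) (d i) x) ≤ ε * h ^ m := by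
      refine prod_small _ i0 c K h ε (fun j => le_max_left _ _) ?_ ?_ hh2 (by linarith)
      · apply max_le (abs_nonneg _)
        rw [lam_eq (hF i0) hx0]
        have h4 := Real.log_le_log (by positivity) hxU.le
        have h5 := neg_abs_le (Real.log (‖eval (cx ξ) (F i0)‖ / 2))
        simp only [hc]
        linarith
      · intro j
        apply max_le (by positivity)
        have h4 := hup j x hx0
          (fun z hz => hxZ z (Finset.mem_biUnion.2 ⟨j, Finset.mem_univ _, hz⟩)) (hxF j)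
        have h5 : K1 j ≤ ∑ i, K1 i :=
          Finset.single_le_sum (f := K1) (fun i _ => hK1 i) (Finset.mem_univ j)
        have h6 := hK1 j
        calc lam (F j) (d j) x ≤ K1 j * (h + 1) := h4
          _ ≤ (∑ i, K1 i) * (2 * h) := mul_le_mul h5 (by linarith) (by linarith) (by linarith)
          _ = K * h := by rw [hK]; ring
    have h4 : 0 ≤ (1 + 1 / (m : ℝ)) ^ m * h ^ m := by positivity
    linarith
  push Not at hnv
  -- the chart
  obtain ⟨a, ha⟩ := exists_eq_ciSup_of_finite (f := fun j => |ξ j|)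
  have hξa : |ξ a| = 1 := by
    have h1 : ∀ j, |ξ j| ≤ |ξ a| := by
      intro j
      have h2 : |ξ j| ≤ ⨆ j, |ξ j| := le_ciSup (f := fun j => |ξ j|) (Set.finite_range _).bddAbove j
      exact h2.trans_eq ha.symm
    apply le_antisymm
    · rw [← hξ]
      exact norm_le_pi_norm ξ a
    · rw [← hξ]
      exact (pi_norm_le_iff_of_nonneg (abs_nonneg _)).2 fun j => h1 j
  have hξa0 : ξ a ≠ 0 := by
    intro h
    rw [h] at hξa
    simp at hξa
  set P : Fin (m + 1) → ℝ := fun j => ξ j / ξ a with hP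
  have hPa : P a = 1 := div_self hξa0
  have hP0 : P ≠ 0 := by
    intro h
    rw [h] at hPa
    simp at hPa
  have hPξ : ∀ i, eval (cx P) (F i) = 0 := by
    intro i
    have h1 := eval_cx_smul (hF i) (ξ a) P
    have h2 : (fun j => ξ a * P j) = ξ := by
      funext j
      simp only [hP]
      field_simp
    rw [h2, hnv i, norm_zero] at h1
    have h3 : |ξ a| ^ d i ≠ 0 := by
      rw [hξa]
      simp
    have h4 := (mul_eq_zero.1 h1.symm).resolve_left h3
    exact norm_eq_zero.1 h4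
  obtain ⟨P', G, hPP', hP'a, hG, hGh, hJ, hGle⟩ := cross hF hFa a P hPa hPξ (hli P hP0 hPξ)
  have hG0 : ∀ i, G i ≠ 0 := by
    intro i h0
    apply hJ
    apply Matrix.det_eq_zero_of_row_eq_zero i.succ
    intro j
    show eval P' (pderiv j (G i)) = 0
    rw [h0, map_zero, map_zero]
  choose Z2 K2 hZ2 hK2 hlow using fun i => lowR hn (hd i) (hGh i) (hG0 i)
  obtain ⟨ε', hε', hεm⟩ := eps_choice m ε hε
  -- the bound for all local heights
  set S : ℝ := ∑ i, (K2 i + 2 * d i) with hS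
  have hSi : ∀ i, K2 i + 2 * d i ≤ S := fun i =>
    Finset.single_le_sum (f := fun i => K2 i + 2 * (d i : ℝ))
      (fun i _ => by have := hK2 i; positivity) (Finset.mem_univ i)
  have hS0 : 0 ≤ S := Finset.sum_nonneg fun i _ => by have := hK2 i; positivity
  set K : ℝ := 2 * S + 1 with hK
  have hK1' : 1 ≤ K := by linarith
  set δ0 : ℝ := ε / (2 * K ^ (m - 1)) with hδ0
  have hδ0p : 0 < δ0 := by positivity
  obtain ⟨N, Z3, D, δ, hN, hZ3, hD, hδ, hδ1, hgm⟩ := gm_loc a P' G hP'a hG hJ hm ε' δ0 K hε'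
    hδ0p hK1'
  rw [← hPP'] at hgm
  -- the neighbourhood
  have hcont : ContinuousAt (fun ξ' : Fin (m + 1) → ℝ =>
      (fun j => ξ' j / ξ' a : Fin (m + 1) → ℝ)) ξ := by
    rw [continuousAt_pi]
    intro j
    exact (continuous_apply j).continuousAt.div (continuous_apply a).continuousAt hξa0
  have hU1 : {ξ' : Fin (m + 1) → ℝ | ‖(fun j => ξ' j / ξ' a : Fin (m + 1) → ℝ) - P‖ < δ} ∈
      𝓝 ξ := by
    have h1 := hcont (Metric.ball_mem_nhds P hδ)
    filter_upwards [h1] with ξ' hξ'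
    rw [Set.mem_preimage, Metric.mem_ball, dist_eq_norm] at hξ'
    exact hξ'
  have hU2 : {ξ' : Fin (m + 1) → ℝ | 1 / 2 < |ξ' a|} ∈ 𝓝 ξ := by
    have h1 : ContinuousAt (fun ξ' : Fin (m + 1) → ℝ => |ξ' a|) ξ :=
      (continuous_apply a).abs.continuousAt
    have h2 := h1 (lt_mem_nhds (a := (1 : ℝ) / 2) (b := |ξ a|) (by rw [hξa]; norm_num))
    exact h2
  refine ⟨_, Filter.inter_mem hU1 hU2, (Finset.univ.biUnion Z2) ∪ Z3.image poly,
    max (max 1 (S / δ0)) (max (D / ε') (S / (ε' * δ0))), ?_, ?_⟩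
  · refine Adm.union ?_ (adm_poly hZ3)
    intro z hz
    obtain ⟨i, -, hi⟩ := Finset.mem_biUnion.1 hz
    exact hZ2 i z hi
  intro x hx0 hxU hxF hxZ hh
  have hH := hgt_ge_one hx0
  have hHp : 0 < hgt x := by linarith
  obtain ⟨hxU1, hxU2⟩ := hxU
  simp only [Set.mem_setOf_eq] at hxU1 hxU2
  have hxa2 : hgt x / 2 < |(x a : ℝ)| := by
    rw [abs_div, abs_of_pos hHp, lt_div_iff₀ hHp] at hxU2
    linarith
  have hxa : x a ≠ 0 := by
    intro h
    rw [h] at hxa2
    simp at hxa2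
    linarith
  have hxap : 0 < |(x a : ℝ)| := abs_pos.2 (by exact_mod_cast hxa)
  have hch : (fun j => (x j : ℝ) / hgt x / ((x a : ℝ) / hgt x)) = ch a x := by
    funext j
    unfold ch
    have : (x a : ℝ) ≠ 0 := by exact_mod_cast hxa
    field_simp
  rw [hch] at hxU1
  set h := Real.log (hgt x) with hh'
  have hh1 : 1 ≤ h := ((le_max_left _ _).trans (le_max_left _ _)).trans hh
  have hh2 : S ≤ δ0 * h := by
    have h2 := ((le_max_right _ _).trans (le_max_left _ _)).trans hh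
    rw [div_le_iff₀ hδ0p] at h2
    linarith
  have hh3 : D ≤ ε' * h := by
    have h2 := ((le_max_left _ _).trans (le_max_right _ _)).trans hh
    rw [div_le_iff₀ hε'] at h2
    linarith
  have hh4 : S ≤ ε' * (δ0 * h) := by
    have h2 := ((le_max_right _ _).trans (le_max_right _ _)).trans hh
    rw [div_le_iff₀ (by positivity)] at h2
    linarith
  -- the values in the chart
  have hrv : rv x = fun j => (x a : ℝ) * ch a x j := by
    have hx' : (x a : ℝ) ≠ 0 := by exact_mod_cast hxa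
    funext j
    unfold rv ch
    field_simp
  have hFch : ∀ i, ‖eval (cx (rv x)) (F i)‖ = |(x a : ℝ)| ^ d i * ‖eval (cx (ch a x)) (F i)‖ := by
    intro i
    rw [hrv]
    exact eval_cx_smul (hF i) _ _
  have hGch : ∀ i, |aeval (rv x) (G i)| = |(x a : ℝ)| ^ d i * |aeval (ch a x) (G i)| := by
    intro i
    have h1 : aeval (fun j => (x a : ℝ) * ch a x j) (G i) =
        (x a : ℝ) ^ d i * aeval (ch a x) (G i) := by
      rw [aeval_def, aeval_def, eval₂_eq_eval_map, eval₂_eq_eval_map]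
      exact eval_hom ((hGh i).map _) _ _
    rw [hrv, h1, abs_mul, abs_pow]
  have hG2 : ∀ i, aeval (rv x) (G i) ≠ 0 ∧ - Real.log |aeval (rv x) (G i)| ≤ K2 i * (h + 1) :=
    fun i => hlow i x hx0 (fun z hz => hxZ z (Finset.mem_union_left _
      (Finset.mem_biUnion.2 ⟨i, Finset.mem_univ _, hz⟩)))
  have hGc0 : ∀ i, 0 < |aeval (ch a x) (G i)| := by
    intro i
    have h1 := abs_pos.2 (hG2 i).1
    rw [hGch] at h1
    exact (mul_pos_iff_of_pos_left (pow_pos hxap _)).1 h1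
  set A : Fin m → ℝ := fun i => - Real.log |aeval (ch a x) (G i)| with hA
  have hAexp : ∀ i, |aeval (ch a x) (G i)| = Real.exp (- A i) := by
    intro i
    simp only [hA, neg_neg]
    rw [Real.exp_log (hGc0 i)]
  have hd0 : ∀ i, (0 : ℝ) ≤ d i := fun i => Nat.cast_nonneg _
  have hl2 : Real.log 2 ≤ 1 := by
    have := Real.log_le_sub_one_of_pos (x := 2) (by norm_num)
    linarith
  have hxah : Real.log |(x a : ℝ)| ≤ h := Real.log_le_log hxap (le_hgt x a)
  have hAup : ∀ i, A i ≤ S * (h + 1) := by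
    intro i
    have h1 := (hG2 i).2
    rw [hGch, Real.log_mul (pow_pos hxap _).ne' (hGc0 i).ne', Real.log_pow] at h1
    have h2 : A i ≤ K2 i * (h + 1) + d i * h := by
      have := mul_le_mul_of_nonneg_left hxah (hd0 i)
      simp only [hA]
      linarith
    have h3 := mul_le_mul_of_nonneg_right (hSi i) (show 0 ≤ h + 1 by linarith)
    have h4 : (d i : ℝ) * h ≤ 2 * d i * (h + 1) := by nlinarith [hd0 i]
    linarith
  have hlamA : ∀ i, lam (F i) (d i) x ≤ A i + d i := by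
    intro i
    have h1 : 0 < ‖eval (cx (ch a x)) (F i)‖ := lt_of_lt_of_le (hGc0 i) (hGle i _)
    unfold lam
    rw [hFch, Real.log_div (pow_pos hHp _).ne' (mul_pos (pow_pos hxap _) h1).ne',
      Real.log_mul (pow_pos hxap _).ne' h1.ne', Real.log_pow, Real.log_pow]
    have h2 : Real.log (hgt x) ≤ Real.log 2 + Real.log |(x a : ℝ)| := by
      rw [← Real.log_mul (by norm_num) hxap.ne']
      apply Real.log_le_log hHp
      linarith
    have h3 := Real.log_le_log (hGc0 i) (hGle i (ch a x))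
    have h4 : (d i : ℝ) * Real.log (hgt x) ≤ d i * (Real.log 2 + Real.log |(x a : ℝ)|) :=
      mul_le_mul_of_nonneg_left h2 (hd0 i)
    have h5 : (d i : ℝ) * Real.log 2 ≤ d i * 1 := mul_le_mul_of_nonneg_left hl2 (hd0 i)
    simp only [hA]
    linarith
  have hdS : ∀ i, (d i : ℝ) ≤ S := by
    intro i
    have h1 := hSi i
    have h2 := hK2 i
    have h3 := hd0 i
    linarith
  have hAK : ∀ i, A i ≤ K * h := by
    intro i
    have h1 := hAup i
    rw [hK]
    nlinarith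
  have hlK : ∀ i, max 0 (lam (F i) (d i) x) ≤ K * h := by
    intro i
    apply max_le (by positivity)
    have h1 := hlamA i
    have h2 : A i + d i ≤ S * (h + 1) + 2 * d i - d i := by
      have h3 := hAup i
      linarith
    have h4 : A i ≤ K2 i * (h + 1) + d i * h := by
      have h1 := (hG2 i).2
      rw [hGch, Real.log_mul (pow_pos hxap _).ne' (hGc0 i).ne', Real.log_pow] at h1
      have := mul_le_mul_of_nonneg_left hxah (hd0 i)
      simp only [hA]
      linarith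
    have h5 : K2 i * (h + 1) + d i * h + d i ≤ S * (2 * h) := by
      have h6 := mul_le_mul_of_nonneg_right (hSi i) (show 0 ≤ 2 * h by linarith)
      have h7 := hK2 i
      have h8 := hd0 i
      nlinarith
    rw [hK]
    nlinarith
  by_cases hsm : ∃ i, A i < δ0 * h
  · obtain ⟨i, hi⟩ := hsm
    have h3 : ∏ i, max 0 (lam (F i) (d i) x) ≤ ε * h ^ m := by
      refine prod_small _ i (2 * (δ0 * h)) K h ε (fun j => le_max_left _ _) ?_ hlK ?_ (by linarith)
      · apply max_le (by positivity)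
        have h1 := hlamA i
        have h2 := hdS i
        linarith
      · have : 2 * (δ0 * h) * K ^ (m - 1) = ε * h := by
          rw [hδ0]
          have : K ^ (m - 1) ≠ 0 := by positivity
          field_simp
        exact this.le
    have h4 : 0 ≤ (1 + 1 / (m : ℝ)) ^ m * h ^ m := by positivity
    linarith
  push Not at hsm
  have hA0 : ∀ i, 0 < A i := fun i => lt_of_lt_of_le (by positivity) (hsm i)
  -- the geometric mean
  have hprod : 0 ≤ ∏ i, A i := Finset.prod_nonneg fun i _ => (hA0 i).le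
  have hm0 : (m : ℝ) ≠ 0 := by
    have : (1 : ℝ) ≤ m := by exact_mod_cast hm
    positivity
  have h1 := hgm x hx0 hxa (fun z hz => by
    rw [← poly_eval]
    exact hxZ _ (Finset.mem_union_right _ (Finset.mem_image_of_mem _ hz))) hxU1.le
    (by linarith) A hAexp hsm hAK ((∏ i, A i) ^ (1 / (m : ℝ))) (by positivity) (by
      rw [← Real.rpow_natCast, ← Real.rpow_mul hprod, one_div, inv_mul_cancel₀ hm0,
        Real.rpow_one])
  set g : ℝ := (∏ i, A i) ^ (1 / (m : ℝ)) with hg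
  have hg0 : 0 ≤ g := by positivity
  have hgm' : g ^ m = ∏ i, A i := by
    rw [hg, ← Real.rpow_natCast, ← Real.rpow_mul hprod, one_div, inv_mul_cancel₀ hm0,
      Real.rpow_one]
  have h2 : g ≤ (1 + 1 / (m : ℝ)) * (1 + 2 * ε') * h := by
    refine h1.trans ?_
    rw [mul_assoc]
    apply mul_le_mul_of_nonneg_left _ (by positivity)
    linarith
  have h3 : ∏ i, max 0 (lam (F i) (d i) x) ≤ ∏ i, (1 + ε') * A i := by
    refine Finset.prod_le_prod (fun i _ => le_max_left _ _) fun i _ => ?_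
    have h4 := hA0 i
    apply max_le (by positivity)
    have h5 := hlamA i
    have h6 := hdS i
    have h7 := hsm i
    have h8 : ε' * (δ0 * h) ≤ ε' * A i := mul_le_mul_of_nonneg_left h7 hε'.le
    linarith
  rw [Finset.prod_mul_distrib, Finset.prod_const, Finset.card_univ, Fintype.card_fin,
    ← hgm'] at h3
  calc ∏ i, max 0 (lam (F i) (d i) x) ≤ (1 + ε') ^ m * g ^ m := h3
    _ ≤ (1 + ε') ^ m * ((1 + 1 / (m : ℝ)) * (1 + 2 * ε') * h) ^ m :=
        mul_le_mul_of_nonneg_left (pow_le_pow_left₀ hg0 h2 _) (by positivity)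
    _ = ((1 + 1 / (m : ℝ)) * (1 + 2 * ε') * (1 + ε')) ^ m * h ^ m := by
        rw [← mul_pow, ← mul_pow]
        ring
    _ ≤ ((1 + 1 / (m : ℝ)) ^ m + ε) * h ^ m :=
        mul_le_mul_of_nonneg_right hεm (by positivity)

include hm hd hF hFa hli in
theorem main (ε : ℝ) (hε : 0 < ε) : LocOK F d ε (Metric.sphere 0 1) := by
  classical
  refine IsCompact.induction_on (isCompact_sphere (0 : Fin (m + 1) → ℝ) 1)
    (p := fun U => LocOK F d ε U) ?_ ?_ ?_ ?_
  · exact ⟨∅, 0, fun z hz => absurd hz (Finset.notMem_empty _),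
      fun x _ hx => absurd hx (Set.notMem_empty _)⟩
  · rintro U V hUV ⟨Z, C, hZ, h⟩
    exact ⟨Z, C, hZ, fun x hx0 hxU => h x hx0 (hUV hxU)⟩
  · rintro U V ⟨Z1, C1, hZ1, h1⟩ ⟨Z2, C2, hZ2, h2⟩
    refine ⟨Z1 ∪ Z2, max C1 C2, hZ1.union hZ2, ?_⟩
    intro x hx0 hxU hv hxZ hh
    rcases hxU with hxU | hxU
    · exact h1 x hx0 hxU hv (fun z hz => hxZ z (Finset.mem_union_left _ hz))
        ((le_max_left _ _).trans hh)
    · exact h2 x hx0 hxU hv (fun z hz => hxZ z (Finset.mem_union_right _ hz))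
        ((le_max_right _ _).trans hh)
  · intro ξ hξ
    obtain ⟨U, hU, h⟩ := loc hm hd hF hFa hli ε hε ξ (by simpa using hξ)
    exact ⟨U, mem_nhdsWithin_of_mem_nhds hU, h⟩

/-- finitely many vectors of bounded height -/
lemma bdd_small {n : ℕ} (f : (Fin n → ℤ) → ℝ) (h1 : ℝ) : ∃ C : ℝ, 0 ≤ C ∧
    ∀ x : Fin n → ℤ, x ≠ 0 → Real.log (hgt x) < h1 → f x ≤ C := by
  have hfin : {x : Fin n → ℤ | x ≠ 0 ∧ Real.log (hgt x) < h1}.Finite := by
    refine (Set.finite_Icc (fun _ : Fin n => -⌈Real.exp h1⌉) (fun _ => ⌈Real.exp h1⌉)).subset ?_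
    rintro x ⟨hx0, hx⟩
    have hH := hgt_ge_one hx0
    have hHp : 0 < hgt x := by linarith
    have h2 : hgt x < Real.exp h1 := by
      rwa [Real.log_lt_iff_lt_exp hHp] at hx
    have h3 : ∀ j, |x j| ≤ ⌈Real.exp h1⌉ := by
      intro j
      have h4 := le_hgt x j
      have h5 : ((|x j| : ℤ) : ℝ) ≤ (⌈Real.exp h1⌉ : ℝ) := by
        push_cast
        exact (h4.trans h2.le).trans (Int.le_ceil _)
      exact_mod_cast h5
    rw [Set.mem_Icc]
    exact ⟨fun j => (abs_le.1 (h3 j)).1, fun j => (abs_le.1 (h3 j)).2⟩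
  obtain ⟨C, hC⟩ := (hfin.image f).bddAbove
  refine ⟨max 0 C, le_max_left _ _, fun x hx0 hx => ?_⟩
  exact (hC ⟨x, ⟨hx0, hx⟩, rfl⟩).trans (le_max_right _ _)

include hm hd hF hFa hli in
/-- the inequality for the geometric mean -/
theorem geom (ε : ℝ) (hε : 0 < ε) : ∃ (Z : Finset (MvPolynomial (Fin (m + 1)) ℤ)) (C : ℝ),
    Adm Z ∧ 0 ≤ C ∧ ∀ x : Fin (m + 1) → ℤ, x ≠ 0 →
      (∀ i, eval (cx (rv x)) (F i) ≠ 0) → (∀ z ∈ Z, eval x z ≠ 0) →
      ∏ i, max 0 (lam (F i) (d i) x) ≤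
        ((1 + 1 / (m : ℝ)) ^ m + ε) * Real.log (hgt x) ^ m + C := by
  obtain ⟨Z, h1, hZ, h⟩ := main hm hd hF hFa hli ε hε
  obtain ⟨C, hC, hb⟩ := bdd_small (fun x => ∏ i, max 0 (lam (F i) (d i) x)) h1
  refine ⟨Z, C, hZ, hC, fun x hx0 hxF hxZ => ?_⟩
  have hh : 0 ≤ Real.log (hgt x) := Real.log_nonneg (hgt_ge_one hx0)
  rcases lt_or_ge (Real.log (hgt x)) h1 with h2 | h2
  · have h3 := hb x hx0 h2
    have h4 : 0 ≤ ((1 + 1 / (m : ℝ)) ^ m + ε) * Real.log (hgt x) ^ m := by positivity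
    linarith
  · have h3 := h x hx0 (Pool.Agent.Q13.CQ.mem_sphere hx0) hxF hxZ h2
    linarith

end

end Pool.Agent.Q13.GM
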