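import Pool.Agent.Q13.GM.Wt
import Pool.Agent.Q13.GM.Flag
import Pool.Agent.Q13.GM.Exp
import Pool.Agent.Q13.CQ.Sch

set_option autoImplicit false

/-!
The main inequality near a point where `m` hypersurfaces of `ℙ^m` meet transversally.
-/

namespace Pool.Agent.Q13.GM

open MvPolynomial Pool.Agent.W180.RR Module

/-- the real algebraic numbers -/
noncomputable abbrev Qr : IntermediateField ℚ ℝ := algebraicClosure ℚ ℝ

lemma alg_Qr (c : Qr) : IsAlgebraic ℚ (c : ℝ) := mem_algebraicClosure_iff.1 c.2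

/-- the exponents of degree `N` -/
abbrev Ix (n N : ℕ) : Type := {α : Fin n → ℕ // α ∈ Finset.piAntidiag Finset.univ N}

/-- the monomials of degree `N` -/
def ver {n N : ℕ} (x : Fin n → ℤ) (α : Ix n N) : ℤ := ∏ j, x j ^ α.1 j

/-- the point of the chart -/
noncomputable def ch {n : ℕ} (a : Fin n) (x : Fin n → ℤ) : Fin n → ℝ :=
  fun j => (x j : ℝ) / (x a : ℝ)

lemma Ix_sum {n N : ℕ} (α : Ix n N) : ∑ j, α.1 j = N := (Finset.mem_piAntidiag.1 α.2).1

lemma ver_ch {n N : ℕ} (a : Fin n) (x : Fin n → ℤ) (hx : x a ≠ 0) (α : Ix n N) :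
    (ver x α : ℝ) = (x a : ℝ) ^ N * ∏ j, ch a x j ^ α.1 j := by
  have hx' : (x a : ℝ) ≠ 0 := by exact_mod_cast hx
  unfold ver ch
  push_cast
  have h1 : (x a : ℝ) ^ N = ∏ j, (x a : ℝ) ^ α.1 j := by
    rw [Finset.prod_pow_eq_pow_sum, Ix_sum α]
  rw [h1, ← Finset.prod_mul_distrib]
  refine Finset.prod_congr rfl fun j _ => ?_
  rw [← mul_pow]
  congr 1
  field_simp

lemma ver_le {n N : ℕ} (x : Fin n → ℤ) (α : Ix n N) : |(ver x α : ℝ)| ≤ hgt x ^ N := by
  unfold ver
  push_cast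
  have h1 : hgt x ^ N = ∏ j, hgt x ^ α.1 j := by
    rw [Finset.prod_pow_eq_pow_sum, Ix_sum α]
  rw [Finset.abs_prod, h1]
  refine Finset.prod_le_prod (fun j _ => abs_nonneg _) fun j _ => ?_
  rw [abs_pow]
  exact pow_le_pow_left₀ (abs_nonneg _) (le_hgt x j) _

/-- the pure power -/
def pw {n : ℕ} (N : ℕ) (a : Fin n) : Ix n N := ⟨fun j => if j = a then N else 0, by
  rw [Finset.mem_piAntidiag]
  exact ⟨by simp, fun i _ => Finset.mem_univ i⟩⟩

lemma ver_pw {n : ℕ} (N : ℕ) (a : Fin n) (x : Fin n → ℤ) : ver x (pw N a) = x a ^ N := by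
  unfold ver pw
  simp only [pow_ite, pow_zero]
  rw [Finset.prod_ite_eq' Finset.univ a, if_pos (Finset.mem_univ _)]

lemma card_Ix {n N : ℕ} (hn : 2 ≤ n) (hN : 1 ≤ N) : 2 ≤ Fintype.card (Ix n N) := by
  have h : 1 < Fintype.card (Ix n N) := by
    rw [Fintype.one_lt_card_iff]
    refine ⟨pw N ⟨0, by omega⟩, pw N ⟨1, by omega⟩, fun h => ?_⟩
    have := congrFun (congrArg Subtype.val h) ⟨0, by omega⟩
    simp [pw] at this
    omega
  exact h

/-- the subspace theorem for forms of degree `N` -/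
theorem schV {n N M : ℕ} (hn : 2 ≤ n) (hN : 1 ≤ N) (e : Fin M ≃ Ix n N)
    (b : Fin M → Ix n N → Qr) (hb : LinearIndependent Qr b) :
    ∃ (Z : Finset (Ix n N → ℤ)) (C : ℝ), (∀ z ∈ Z, z ≠ 0) ∧ 0 < C ∧ ∀ x : Fin n → ℤ, x ≠ 0 →
      (∀ z ∈ Z, ∑ α, z α * ver x α ≠ 0) →
      (hgt x)⁻¹ ≤ C * ∏ i, |∑ α, (b i α : ℝ) * (ver x α : ℝ)| := by
  classical
  have hM : 2 ≤ M := by
    have h1 := card_Ix hn hN
    rwa [← Fintype.card_congr e, Fintype.card_fin] at h1
  let L : Fin M → Fin M → ℝ := fun i j => (b i (e j) : ℝ)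
  have hdet : (Matrix.of L).det ≠ 0 := by
    have h1 : LinearIndependent Qr (fun i => (fun j => b i (e j) : Fin M → Qr)) := by
      have h2 := hb.map' (LinearMap.funLeft Qr Qr e)
        (LinearMap.ker_eq_bot.2 (LinearMap.funLeft_injective_of_surjective _ _ _ e.surjective))
      exact h2
    have h3 : IsUnit (Matrix.of fun i j => b i (e j) : Matrix (Fin M) (Fin M) Qr) :=
      Matrix.linearIndependent_rows_iff_isUnit.1 h1
    have h4 : (Matrix.of fun i j => b i (e j) : Matrix (Fin M) (Fin M) Qr).det ≠ 0 :=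
      ((Matrix.isUnit_iff_isUnit_det _).1 h3).ne_zero
    intro h5
    apply h4
    have h6 : (algebraMap Qr ℝ) (Matrix.of fun i j => b i (e j) : Matrix (Fin M) (Fin M) Qr).det =
        0 := by
      rw [RingHom.map_det, ← h5]
      rfl
    exact (algebraMap Qr ℝ).injective (h6.trans (map_zero _).symm)
  have hN' : (0 : ℝ) < N := by exact_mod_cast hN
  obtain ⟨Z, C, hZ, hC, h⟩ := Pool.Agent.Q13.CQ.schmidt hM L
    (fun i j => alg_Qr _) hdet (1 / N) (by positivity)
  refine ⟨Z.image fun z α => z (e.symm α), C, ?_, hC, ?_⟩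
  · intro z hz
    obtain ⟨w, hw, rfl⟩ := Finset.mem_image.1 hz
    intro h0
    apply hZ w hw
    funext j
    have := congrFun h0 (e j)
    simpa using this
  · intro x hx0 hxZ
    obtain ⟨a, ha⟩ := Function.ne_iff.1 hx0
    have hxa : x a ≠ 0 := ha
    set y : Fin M → ℤ := fun j => ver x (e j) with hy
    have hy0 : y ≠ 0 := by
      intro h0
      have := congrFun h0 (e.symm (pw N a))
      simp only [hy, Equiv.apply_symm_apply, ver_pw, Pi.zero_apply] at this
      exact hxa (pow_eq_zero_iff (by omega) |>.1 this)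
    have h1 := h y hy0 (by
      intro z hz
      have h2 := hxZ _ (Finset.mem_image_of_mem _ hz)
      rw [← Equiv.sum_comp e] at h2
      simpa using h2)
    have hH := hgt_ge_one hx0
    have hHp : 0 < hgt x := by linarith
    have hyH : hgt y ≤ hgt x ^ N := by
      have hne : Nonempty (Fin M) := ⟨e.symm (pw N a)⟩
      exact ciSup_le fun j => ver_le x (e j)
    have hy1 := hgt_ge_one hy0
    have h2 : (hgt x)⁻¹ ≤ hgt y ^ (-(1 / (N : ℝ))) := by
      have h3 : (hgt x ^ N) ^ (-(1 / (N : ℝ))) ≤ hgt y ^ (-(1 / (N : ℝ))) :=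
        Real.rpow_le_rpow_of_nonpos (by linarith) hyH (by
          rw [neg_nonpos]
          positivity)
      have h4 : (hgt x ^ N) ^ (-(1 / (N : ℝ))) = (hgt x)⁻¹ := by
        rw [← Real.rpow_natCast, ← Real.rpow_mul hHp.le, mul_neg, mul_one_div,
          div_self hN'.ne', Real.rpow_neg_one]
      rwa [h4] at h3
    refine h2.trans (h1.trans (le_of_eq ?_))
    congr 1
    refine Finset.prod_congr rfl fun i _ => ?_
    congr 1
    unfold Pool.Agent.Q13.CQ.lf
    rw [← Equiv.sum_comp e (fun α => (b i α : ℝ) * (ver x α : ℝ))]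

section

variable {m : ℕ} (N R : ℕ) (hR : 1 ≤ R) (a : Fin (m + 1)) (P : Fin (m + 1) → Qr)
  (G : Fin m → MvPolynomial (Fin (m + 1)) Qr)

/-- the local parameters -/
noncomputable def uu : Fin (m + 1) → MvPolynomial (Fin (m + 1)) Qr := Fin.cons (X a - 1) G

/-- the monomial -/
noncomputable def mon (α : Ix (m + 1) N) : MvPolynomial (Fin (m + 1)) Qr :=
  ∏ j, X j ^ α.1 j

variable (hPa : P a = 1) (hG : ∀ i, eval P (G i) = 0)
  (hJ : (Matrix.of fun i j => eval P (pderiv j (uu a G i))).det ≠ 0)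

include hPa hG in
lemma uu_zero (i : Fin (m + 1)) : eval P (uu a G i) = 0 := by
  refine Fin.cases ?_ (fun i => ?_) i
  · show eval P (X a - 1) = 0
    rw [map_sub, eval_X, hPa, map_one, sub_self]
  · exact hG i

include hR hPa hG hJ in
/-- expansions of the monomials in the values of the forms -/
lemma exp_mon (α : Ix (m + 1) N) : ∃ (c : (Fin m → ℕ) → Qr) (C : ℝ), 0 ≤ C ∧
    ∀ η : Fin (m + 1) → ℝ, η a = 1 → ‖η - rp P‖ ≤ 1 →
      |∏ j, η j ^ α.1 j - ∑ ν ∈ Bx m R, (c ν : ℝ) * ∏ i, aeval η (G i) ^ ν i| ≤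
        C * ‖η - rp P‖ ^ R := by
  classical
  obtain ⟨c, C, hC, h⟩ := expand (uu_zero a P G hPa hG) hJ (mon N α) R
  refine ⟨fun ν => c (Fin.cons 0 ν), C, hC, fun η hηa hη => ?_⟩
  have h1 := h η hη
  have e1 : aeval η (mon N α) = ∏ j, η j ^ α.1 j := by
    unfold mon
    rw [map_prod]
    refine Finset.prod_congr rfl fun j _ => ?_
    rw [map_pow, aeval_X]
  rw [e1] at h1
  have e2 : ∑ μ ∈ Bx (m + 1) R, algebraMap Qr ℝ (c μ) * ∏ i, aeval η (uu a G i) ^ μ i =
      ∑ ν ∈ Bx m R, (c (Fin.cons 0 ν) : ℝ) * ∏ i, aeval η (G i) ^ ν i := by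
    symm
    have e3 : ∀ ν : Fin m → ℕ, (c (Fin.cons 0 ν) : ℝ) * ∏ i, aeval η (G i) ^ ν i =
        (fun μ : Fin (m + 1) → ℕ => algebraMap Qr ℝ (c μ) * ∏ i, aeval η (uu a G i) ^ μ i)
          (Fin.cons 0 ν) := by
      intro ν
      show (c (Fin.cons 0 ν) : ℝ) * ∏ i, aeval η (G i) ^ ν i =
        algebraMap Qr ℝ (c (Fin.cons 0 ν)) *
          ∏ i, aeval η (uu a G i) ^ (Fin.cons 0 ν : Fin (m + 1) → ℕ) i
      rw [Fin.prod_univ_succ]
      simp only [Fin.cons_zero, Fin.cons_succ, pow_zero, one_mul, uu]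
      rfl
    rw [Finset.sum_congr rfl fun ν _ => e3 ν,
      ← Finset.sum_image (f := fun μ : Fin (m + 1) → ℕ =>
        algebraMap Qr ℝ (c μ) * ∏ i, aeval η (uu a G i) ^ μ i)
        (g := fun ν : Fin m → ℕ => (Fin.cons 0 ν : Fin (m + 1) → ℕ))
        (fun s _ t _ h => Fin.cons_right_injective (α := fun _ => ℕ) (0 : ℕ) h)]
    refine Finset.sum_subset ?_ fun μ hμ hμ' => ?_
    · intro μ hμ
      obtain ⟨ν, hν, rfl⟩ := Finset.mem_image.1 hμ
      rw [mem_Bx] at hν ⊢
      intro i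
      refine Fin.cases ?_ (fun i => ?_) i
      · rw [Fin.cons_zero]
        omega
      · rw [Fin.cons_succ]
        exact hν i
    · have h0 : μ 0 ≠ 0 := by
        intro h0
        apply hμ'
        refine Finset.mem_image.2 ⟨fun i => μ i.succ, ?_, ?_⟩
        · rw [mem_Bx] at hμ ⊢
          intro i
          exact hμ _
        · funext i
          refine Fin.cases ?_ (fun i => ?_) i
          · rw [Fin.cons_zero, h0]
          · rw [Fin.cons_succ]
      rw [Fin.prod_univ_succ]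
      have e4 : aeval η (uu a G 0) = 0 := by
        show aeval η (X a - 1) = 0
        rw [map_sub, aeval_X, map_one, hηa, sub_self]
      rw [e4, zero_pow h0, zero_mul, mul_zero]
  rw [e2] at h1
  exact h1

end

end Pool.Agent.Q13.GM
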