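import Pool.Agent.Q13.GM.Star
import Pool.Agent.Q13.CQ.Alg
import Pool.Agent.Q13.AP.Prox
import Pool.Agent.Q13.CQ.Loc

set_option autoImplicit false

/-!
The main inequality with all constants, and lower bounds for the values of forms.
-/

namespace Pool.Agent.Q13.GM

open MvPolynomial Pool.Agent.W180.RR Module

lemma card_Ix_ge (m N : ℕ) : (N : ℝ) ^ m ≤ (m.factorial : ℝ) * Fintype.card (Ix (m + 1) N) := by
  have h1 : Fintype.card (Ix (m + 1) N) = (N + m).choose m := by
    have e1 : (Finset.piAntidiag (Finset.univ : Finset (Fin (m + 1))) N).card =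
        (Finset.sym (Finset.univ : Finset (Fin (m + 1))) N).card := by
      rw [← Finset.map_sym_eq_piAntidiag, Finset.card_map]
    have e2 : (Finset.sym (Finset.univ : Finset (Fin (m + 1))) N).card =
        Fintype.card (Sym (Fin (m + 1)) N) := by
      rw [Finset.sym_univ, Finset.card_univ]
    have e3 : m + 1 + N - 1 = N + m := by omega
    rw [Fintype.card_coe, e1, e2, Sym.card_sym_eq_choose, Fintype.card_fin, e3]
    exact Nat.choose_symm_add
  have h2 : (N + 1) ^ m ≤ (N + 1).ascFactorial m := Nat.pow_succ_le_ascFactorial _ _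
  rw [Nat.ascFactorial_eq_factorial_mul_choose] at h2
  rw [h1]
  have h3 : (N : ℝ) ^ m ≤ ((N : ℝ) + 1) ^ m := pow_le_pow_left₀ (Nat.cast_nonneg _) (by linarith) _
  have h4 : (((N + 1) ^ m : ℕ) : ℝ) ≤ ((m.factorial * (N + m).choose m : ℕ) : ℝ) := by
    exact_mod_cast h2
  push_cast at h4
  linarith

section

variable {m : ℕ} (a : Fin (m + 1)) (P : Fin (m + 1) → Qr)
  (G : Fin m → MvPolynomial (Fin (m + 1)) Qr)

variable (hPa : P a = 1) (hG : ∀ i, eval P (G i) = 0)
  (hJ : (Matrix.of fun i j => eval P (pderiv j (uu a G i))).det ≠ 0)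

include hPa hG hJ in
theorem star (hm : 1 ≤ m) (N R : ℕ) (hN : 1 ≤ N) (hR : 1 ≤ R) :
    ∃ (Z : Finset (Ix (m + 1) N → ℤ)) (D δ : ℝ), (∀ z ∈ Z, z ≠ 0) ∧ 0 < δ ∧ δ ≤ 1 ∧
      ∀ x : Fin (m + 1) → ℤ, x ≠ 0 →
      x a ≠ 0 → (∀ z ∈ Z, ∑ α, z α * ver x α ≠ 0) → ‖ch a x - rp P‖ ≤ δ →
      ∀ A : Fin m → ℝ, (∀ i, 0 < A i) → (∀ i, |aeval (ch a x) (G i)| = Real.exp (- A i)) →
      ∀ t : ℝ, 0 ≤ t → (∀ i, t ≤ R * A i) →
      (Fintype.card (Ix (m + 1) N)) * t -
        (t + ∑ i, A i) ^ (m + 1) / ((m + 1).factorial * ∏ i, A i) ≤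
        (N * (Fintype.card (Ix (m + 1) N)) + 1) * Real.log (hgt x) + D := by
  classical
  have hex : ∀ α : Ix (m + 1) N, ∃ (c : (Fin m → ℕ) → Qr) (C : ℝ), 0 ≤ C ∧
      ∀ η : Fin (m + 1) → ℝ, η a = 1 → ‖η - rp P‖ ≤ 1 →
        |∏ j, η j ^ α.1 j - ∑ ν ∈ Bx m R, (c ν : ℝ) * ∏ i, aeval η (G i) ^ ν i| ≤
          C * ‖η - rp P‖ ^ R := fun α => exp_mon N R hR a P G hPa hG hJ α
  choose c Cc hCc hexp using hex
  obtain ⟨C, δ, hC, hδ, hδ1, hdist⟩ := dist_le (uu_zero a P G hPa hG) hJ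
  let K := Fintype.card (Bx m R)
  let e' : Fin K ≃ Bx m R := (Fintype.equivFin _).symm
  have hall : ∀ σ : Equiv.Perm (Fin K), ∃ (Z : Finset (Ix (m + 1) N → ℤ)) (D : ℝ),
      (∀ z ∈ Z, z ≠ 0) ∧ ∀ x : Fin (m + 1) → ℤ, x ≠ 0 →
      x a ≠ 0 → (∀ z ∈ Z, ∑ α, z α * ver x α ≠ 0) → ‖ch a x - rp P‖ ≤ 1 →
      ∀ A : Fin m → ℝ, (∀ i, 0 < A i) → (∀ i, |aeval (ch a x) (G i)| = Real.exp (- A i)) →
      ∀ t : ℝ, 0 ≤ t → ‖ch a x - rp P‖ ^ R ≤ C ^ R * Real.exp (-t) →
      Monotone (fun r => wt A (e' (σ r)).1) →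
      (Fintype.card (Ix (m + 1) N)) * t -
        (t + ∑ i, A i) ^ (m + 1) / ((m + 1).factorial * ∏ i, A i) ≤
        (N * (Fintype.card (Ix (m + 1) N)) + 1) * Real.log (hgt x) + D := fun σ =>
    star_one N R a P G c Cc hm hN hCc hexp (C ^ R) (by positivity) e' σ
  choose Z D hZ hD using hall
  refine ⟨Finset.univ.biUnion Z, ∑ σ, |D σ|, δ, ?_, hδ, hδ1, ?_⟩
  · intro z hz
    obtain ⟨σ, -, hσ⟩ := Finset.mem_biUnion.1 hz
    exact hZ σ z hσ
  intro x hx0 hxa hxZ hη A hA hAG t ht htR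
  set σ : Equiv.Perm (Fin K) := Tuple.sort (fun r => wt A (e' r).1) with hσ
  have hmono : Monotone (fun r => wt A (e' (σ r)).1) :=
    Tuple.monotone_sort (fun r => wt A (e' r).1)
  have hR0 : (0 : ℝ) < R := by exact_mod_cast hR
  have hd := hdist (ch a x) hη (Real.exp (-(t / R))) (by
    intro i
    refine Fin.cases ?_ (fun i => ?_) i
    · show |aeval (ch a x) (X a - 1)| ≤ _
      have : ch a x a = 1 := div_self (by exact_mod_cast hxa)
      rw [map_sub, aeval_X, map_one, this, sub_self, abs_zero]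
      exact (Real.exp_pos _).le
    · show |aeval (ch a x) (G i)| ≤ _
      rw [hAG]
      apply Real.exp_le_exp.2
      have h1 := htR i
      have h2 : t / R ≤ A i := by
        rw [div_le_iff₀ hR0]
        linarith
      linarith)
  have h1 := hD σ x hx0 hxa (fun z hz => hxZ z (Finset.mem_biUnion.2 ⟨σ, Finset.mem_univ _, hz⟩))
    (hη.trans hδ1) A hA hAG t ht (by
      have h2 := pow_le_pow_left₀ (norm_nonneg _) hd R
      rw [mul_pow, ← Real.exp_nat_mul] at h2
      have h3 : (R : ℝ) * -(t / R) = -t := by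
        field_simp
      rwa [h3] at h2) hmono
  have h2 : D σ ≤ ∑ σ, |D σ| :=
    (le_abs_self _).trans (Finset.single_le_sum (f := fun σ => |D σ|)
      (fun σ _ => abs_nonneg _) (Finset.mem_univ σ))
  linarith

include hPa hG hJ in
/-- the bound for the geometric mean of the local heights, if none of them is small -/
theorem gm_loc (hm : 1 ≤ m) (ε δ0 K : ℝ) (hε : 0 < ε) (hδ0 : 0 < δ0) (hK : 1 ≤ K) :
    ∃ (N : ℕ) (Z : Finset (Ix (m + 1) N → ℤ)) (D δ : ℝ), 1 ≤ N ∧ (∀ z ∈ Z, z ≠ 0) ∧ 0 ≤ D ∧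
      0 < δ ∧ δ ≤ 1 ∧ ∀ x : Fin (m + 1) → ℤ, x ≠ 0 →
      x a ≠ 0 → (∀ z ∈ Z, ∑ α, z α * ver x α ≠ 0) → ‖ch a x - rp P‖ ≤ δ →
      0 < Real.log (hgt x) →
      ∀ A : Fin m → ℝ, (∀ i, |aeval (ch a x) (G i)| = Real.exp (- A i)) →
      (∀ i, δ0 * Real.log (hgt x) ≤ A i) → (∀ i, A i ≤ K * Real.log (hgt x)) →
      ∀ g : ℝ, 0 ≤ g → g ^ m = ∏ i, A i →
      g ≤ (1 + 1 / m) * ((1 + ε) * Real.log (hgt x) + D) := by
  have hm0 : (0 : ℝ) < m := by exact_mod_cast hm
  obtain ⟨N, hN⟩ := exists_nat_ge ((1 + m * K) / ε + m * K + 1)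
  have hmK : 0 < m * K := by positivity
  have hN1 : (1 : ℝ) ≤ N := by
    have : 0 ≤ (1 + m * K) / ε := by positivity
    linarith
  have hN1' : 1 ≤ N := by exact_mod_cast hN1
  have hN2 : m * K ≤ N := by
    have : 0 ≤ (1 + m * K) / ε := by positivity
    linarith
  have hN3 : (1 + m * K) ≤ ε * N := by
    have h1 : (1 + m * K) / ε ≤ N := by linarith
    rw [div_le_iff₀ hε] at h1
    linarith
  obtain ⟨R, hR⟩ := exists_nat_ge (N * K / δ0 + 1)
  have hR1 : 1 ≤ R := by
    have h1 : 0 ≤ N * K / δ0 := by positivity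
    have : (1 : ℝ) ≤ R := by linarith
    exact_mod_cast this
  have hR2 : N * K ≤ R * δ0 := by
    have h1 : N * K / δ0 ≤ R := by linarith
    rwa [div_le_iff₀ hδ0] at h1
  obtain ⟨Z, D, δ, hZ, hδ, hδ1, hmain⟩ := star a P G hPa hG hJ hm N R hN1' hR1
  refine ⟨N, Z, |D|, δ, hN1', hZ, abs_nonneg _, hδ, hδ1, ?_⟩
  intro x hx0 hxa hxZ hη hh A hAG hAlo hAup g hg hgA
  set h := Real.log (hgt x) with hhdef
  have hA : ∀ i, 0 < A i := fun i => lt_of_lt_of_le (mul_pos hδ0 hh) (hAlo i)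
  have hSA : ∑ i, A i ≤ m * K * h := by
    calc ∑ i, A i ≤ ∑ _i : Fin m, K * h := Finset.sum_le_sum fun i _ => hAup i
      _ = m * K * h := by
        rw [Finset.sum_const, Finset.card_univ, Fintype.card_fin, nsmul_eq_mul]
        ring
  have hSA0 : 0 ≤ ∑ i, A i := Finset.sum_nonneg fun i _ => (hA i).le
  have hD0 : 0 ≤ |D| := abs_nonneg _
  -- small g
  by_cases hsmall : N * g < ∑ i, A i
  · have h1 : N * g < N * h := by
      have : m * K * h ≤ N * h := mul_le_mul_of_nonneg_right hN2 hh.le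
      linarith
    have h2 : g < h := lt_of_mul_lt_mul_left h1 (by linarith)
    have h3 : h ≤ (1 + ε) * h + |D| := by nlinarith
    have h4 : (1 + ε) * h + |D| ≤ (1 + 1 / m) * ((1 + ε) * h + |D|) := by
      have h5 : 0 ≤ (1 + ε) * h + |D| := by linarith
      have : 0 ≤ 1 / (m : ℝ) * ((1 + ε) * h + |D|) := by positivity
      linarith
    linarith
  push Not at hsmall
  have hg0 : 0 < g := by
    have hprod : 0 < ∏ i, A i := Finset.prod_pos fun i _ => hA i
    rcases hg.lt_or_eq with h1 | h1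
    · exact h1
    · rw [← hgA, ← h1, zero_pow (by omega)] at hprod
      exact absurd hprod (lt_irrefl _)
  have hgK : g ≤ K * h := by
    have h1 : g ^ m ≤ (K * h) ^ m := by
      rw [hgA]
      calc ∏ i, A i ≤ ∏ _i : Fin m, K * h :=
            Finset.prod_le_prod (fun i _ => (hA i).le) fun i _ => hAup i
        _ = (K * h) ^ m := by
          rw [Finset.prod_const, Finset.card_univ, Fintype.card_fin]
    exact le_of_pow_le_pow_left₀ (by omega) (by positivity) h1
  set t : ℝ := N * g - ∑ i, A i with ht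
  have ht0 : 0 ≤ t := by linarith
  have htR : ∀ i, t ≤ R * A i := by
    intro i
    have h1 : t ≤ N * g := by linarith
    have h2 : N * g ≤ N * (K * h) := mul_le_mul_of_nonneg_left hgK (by linarith)
    have h3 : R * (δ0 * h) ≤ R * A i := mul_le_mul_of_nonneg_left (hAlo i) (Nat.cast_nonneg _)
    have h4 : N * K * h ≤ R * δ0 * h := mul_le_mul_of_nonneg_right hR2 hh.le
    nlinarith
  have key := hmain x hx0 hxa hxZ hη A hA hAG t ht0 htR
  have e1 : t + ∑ i, A i = N * g := by rw [ht]; ring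
  rw [e1, ← hgA] at key
  set M : ℝ := (Fintype.card (Ix (m + 1) N) : ℝ) with hM
  have hMge : (N : ℝ) ^ m ≤ m.factorial * M := card_Ix_ge m N
  have hM1 : 1 ≤ M := by
    have := card_Ix (n := m + 1) (N := N) (by omega) hN1'
    have h2 : (2 : ℝ) ≤ M := by
      rw [hM]
      exact_mod_cast this
    linarith
  have e2 : (N * g) ^ (m + 1) / ((m + 1).factorial * g ^ m) = N ^ m * N * g / (m + 1).factorial := by
    have h1 : ((m + 1).factorial : ℝ) ≠ 0 := by positivity
    have h2 : g ^ m ≠ 0 := (pow_pos hg0 m).ne'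
    rw [div_eq_div_iff (mul_ne_zero h1 h2) h1]
    ring
  have e3 : (N : ℝ) ^ m * N * g / (m + 1).factorial ≤ M * N * g / (m + 1) := by
    rw [Nat.factorial_succ]
    push_cast
    rw [div_le_div_iff₀ (by positivity) (by positivity)]
    have h1 : (N : ℝ) ^ m * (N * g * (m + 1)) ≤ (m.factorial * M) * (N * g * (m + 1)) :=
      mul_le_mul_of_nonneg_right hMge (by positivity)
    nlinarith
  rw [e2] at key
  -- M N g m/(m+1) ≤ ...
  have h5 : M * N * g * (m / (m + 1)) ≤ (N * M + 1) * h + D + M * (m * K * h) := by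
    have h6 : M * N * g / (m + 1) = M * N * g - M * N * g * (m / (m + 1)) := by
      field_simp
      ring
    have h7 : M * ∑ i, A i ≤ M * (m * K * h) := mul_le_mul_of_nonneg_left hSA (by linarith)
    have h8 : M * t = M * N * g - M * ∑ i, A i := by rw [ht]; ring
    linarith
  have h9 : (N * M + 1) * h + D + M * (m * K * h) ≤ M * N * ((1 + ε) * h + |D|) := by
    have h10 : D ≤ M * N * |D| := by
      have h11 : 1 ≤ M * N := by nlinarith
      have h12 : |D| ≤ M * N * |D| := by nlinarith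
      exact (le_abs_self D).trans h12
    have h13 : M * h * (1 + m * K) ≤ M * h * (ε * N) :=
      mul_le_mul_of_nonneg_left hN3 (by positivity)
    have h14 : h ≤ M * h := by nlinarith
    nlinarith
  have h15 : M * N * (g * (m / (m + 1))) ≤ M * N * ((1 + ε) * h + |D|) := by
    have : M * N * (g * (m / (m + 1))) = M * N * g * (m / (m + 1)) := by ring
    rw [this]
    linarith
  have hMN : 0 < M * N := by positivity
  have h16 : g * (m / (m + 1)) ≤ (1 + ε) * h + |D| := le_of_mul_le_mul_left h15 hMN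
  have h17 : g = (1 + 1 / m) * (g * (m / (m + 1))) := by
    field_simp
  rw [h17]
  exact mul_le_mul_of_nonneg_left h16 (by positivity)

end

/-- the value of a form of degree `N` -/
theorem lower {n N : ℕ} (hn : 2 ≤ n) (hN : 1 ≤ N) (v : Ix n N → Qr) (hv : v ≠ 0) :
    ∃ (Z : Finset (Ix n N → ℤ)) (K C : ℝ), (∀ z ∈ Z, z ≠ 0) ∧ 0 ≤ K ∧ ∀ x : Fin n → ℤ, x ≠ 0 →
      (∀ z ∈ Z, ∑ α, z α * ver x α ≠ 0) →
      (∑ α, (v α : ℝ) * (ver x α : ℝ)) ≠ 0 ∧
      - Real.log |∑ α, (v α : ℝ) * (ver x α : ℝ)| ≤ K * Real.log (hgt x) + C := by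
  classical
  obtain ⟨α0, hα0⟩ := Function.ne_iff.1 hv
  let b : Ix n N → Ix n N → Qr := fun α => if α = α0 then v else Pi.single α 1
  have hb : LinearIndependent Qr b := by
    rw [Fintype.linearIndependent_iff]
    intro g hg
    have h1 : ∀ β, ∑ α, g α * b α β = 0 := by
      intro β
      have := congrFun hg β
      simpa using this
    have h2 : g α0 = 0 := by
      have h3 := h1 α0
      rw [Finset.sum_eq_single α0] at h3
      · simp only [b, if_true] at h3
        exact (mul_eq_zero.1 h3).resolve_right hα0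
      · intro α _ hα
        simp only [b, if_neg hα]
        rw [Pi.single_eq_of_ne (Ne.symm hα), mul_zero]
      · intro h
        exact absurd (Finset.mem_univ _) h
    intro β
    by_cases hβ : β = α0
    · rw [hβ, h2]
    · have h3 := h1 β
      rw [Finset.sum_eq_single β] at h3
      · simpa only [b, if_neg hβ, Pi.single_eq_same, mul_one] using h3
      · intro α _ hα
        by_cases hα' : α = α0
        · rw [hα', h2, zero_mul]
        · simp only [b, if_neg hα']
          rw [Pi.single_eq_of_ne (Ne.symm hα), mul_zero]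
      · intro h
        exact absurd (Finset.mem_univ _) h
  let e : Fin (Fintype.card (Ix n N)) ≃ Ix n N := (Fintype.equivFin _).symm
  obtain ⟨Z, C, hZ, hC, hsch⟩ := schV hn hN e (fun i => b (e i)) (hb.comp e e.injective)
  refine ⟨Z, 1 + N * ((Fintype.card (Ix n N) : ℕ) : ℝ), Real.log C, hZ, by positivity, fun x hx0 hxZ => ?_⟩
  have h1 := hsch x hx0 hxZ
  have hH := hgt_ge_one hx0
  have hHp : 0 < hgt x := by linarith
  have h2 : ∏ i, |∑ α, (b (e i) α : ℝ) * (ver x α : ℝ)| =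
      |∑ α, (v α : ℝ) * (ver x α : ℝ)| * ∏ α ∈ Finset.univ.erase α0, |(ver x α : ℝ)| := by
    rw [Equiv.prod_comp e (fun β => |∑ α, (b β α : ℝ) * (ver x α : ℝ)|),
      ← Finset.mul_prod_erase Finset.univ _ (Finset.mem_univ α0)]
    congr 1
    · simp only [b, if_true]
    · refine Finset.prod_congr rfl fun β hβ => ?_
      have hβ' : β ≠ α0 := Finset.ne_of_mem_erase hβ
      congr 1
      rw [Finset.sum_eq_single β]
      · simp only [b, if_neg hβ', Pi.single_eq_same]
        simp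
      · intro α _ hα
        simp only [b, if_neg hβ']
        rw [Pi.single_eq_of_ne hα]
        simp
      · intro h
        exact absurd (Finset.mem_univ _) h
  have h3 : ∏ α ∈ Finset.univ.erase α0, |(ver x α : ℝ)| ≤ hgt x ^ (N * Fintype.card (Ix n N)) := by
    calc ∏ α ∈ Finset.univ.erase α0, |(ver x α : ℝ)| ≤
          ∏ _α ∈ (Finset.univ : Finset (Ix n N)).erase α0, hgt x ^ N :=
            Finset.prod_le_prod (fun _ _ => abs_nonneg _) fun α _ => ver_le x α
      _ = (hgt x ^ N) ^ ((Finset.univ : Finset (Ix n N)).erase α0).card := by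
          rw [Finset.prod_const]
      _ ≤ (hgt x ^ N) ^ Fintype.card (Ix n N) := by
          apply pow_le_pow_right₀ (one_le_pow₀ hH)
          rw [Finset.card_erase_of_mem (Finset.mem_univ _), Finset.card_univ]
          exact Nat.sub_le _ _
      _ = hgt x ^ (N * Fintype.card (Ix n N)) := by rw [← pow_mul]
  rw [h2] at h1
  have h4 : (∑ α, (v α : ℝ) * (ver x α : ℝ)) ≠ 0 := by
    intro h0
    rw [h0, abs_zero, zero_mul, mul_zero] at h1
    exact absurd h1 (not_le.2 (inv_pos.2 hHp))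
  refine ⟨h4, ?_⟩
  have h5 : (hgt x)⁻¹ ≤ C * (|∑ α, (v α : ℝ) * (ver x α : ℝ)| * hgt x ^ (N * Fintype.card (Ix n N))) :=
    h1.trans (mul_le_mul_of_nonneg_left (mul_le_mul_of_nonneg_left h3 (abs_nonneg _)) hC.le)
  have h6 := Real.log_le_log (inv_pos.2 hHp) h5
  have h7 : 0 < |∑ α, (v α : ℝ) * (ver x α : ℝ)| := abs_pos.2 h4
  rw [Real.log_inv, Real.log_mul hC.ne' (mul_pos h7 (pow_pos hHp _)).ne',
    Real.log_mul h7.ne' (pow_pos hHp _).ne', Real.log_pow] at h6
  push_cast at h6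
  linarith

end Pool.Agent.Q13.GM
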