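import Pool.Agent.Q13.GM.Loc

set_option autoImplicit false

/-!
The main inequality near a point where `m` hypersurfaces of `ℙ^m` meet transversally.
-/

namespace Pool.Agent.Q13.GM

open MvPolynomial Pool.Agent.W180.RR Module

section

variable {m : ℕ} (N R : ℕ) (a : Fin (m + 1)) (P : Fin (m + 1) → Qr)
  (G : Fin m → MvPolynomial (Fin (m + 1)) Qr)
  (c : Ix (m + 1) N → (Fin m → ℕ) → Qr) (Cc : Ix (m + 1) N → ℝ)

/-- the coefficient of a form at a monomial in the local parameters -/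
noncomputable def coef (ν : Fin m → ℕ) : (Ix (m + 1) N → Qr) →ₗ[Qr] Qr where
  toFun v := ∑ α, v α * c α ν
  map_add' v w := by simp only [Pi.add_apply, add_mul, Finset.sum_add_distrib]
  map_smul' t v := by
    simp only [Pi.smul_apply, smul_eq_mul, mul_assoc, Finset.mul_sum, RingHom.id_apply]

lemma prod_exp (η : Fin (m + 1) → ℝ) (A : Fin m → ℝ)
    (hA : ∀ i, |aeval η (G i)| = Real.exp (- A i)) (ν : Fin m → ℕ) :
    |∏ i, aeval η (G i) ^ ν i| = Real.exp (- wt A ν) := by
  rw [Finset.abs_prod]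
  have h1 : ∀ i, |aeval η (G i) ^ ν i| = Real.exp (-(A i * ν i)) := by
    intro i
    rw [abs_pow, hA, ← Real.exp_nat_mul]
    congr 1
    ring
  rw [Finset.prod_congr rfl fun i _ => h1 i, ← Real.exp_sum]
  congr 1
  unfold wt
  rw [Finset.sum_neg_distrib]

theorem star_one (hm : 1 ≤ m) (hN : 1 ≤ N) (hCc : ∀ α, 0 ≤ Cc α)
    (hexp : ∀ α, ∀ η : Fin (m + 1) → ℝ, η a = 1 → ‖η - rp P‖ ≤ 1 →
      |∏ j, η j ^ α.1 j - ∑ ν ∈ Bx m R, (c α ν : ℝ) * ∏ i, aeval η (G i) ^ ν i| ≤
        Cc α * ‖η - rp P‖ ^ R)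
    (B0 : ℝ) (hB0 : 0 ≤ B0) {K : ℕ} (e' : Fin K ≃ Bx m R) (σ : Equiv.Perm (Fin K)) :
    ∃ (Z : Finset (Ix (m + 1) N → ℤ)) (D : ℝ), (∀ z ∈ Z, z ≠ 0) ∧ ∀ x : Fin (m + 1) → ℤ, x ≠ 0 →
      x a ≠ 0 → (∀ z ∈ Z, ∑ α, z α * ver x α ≠ 0) → ‖ch a x - rp P‖ ≤ 1 →
      ∀ A : Fin m → ℝ, (∀ i, 0 < A i) → (∀ i, |aeval (ch a x) (G i)| = Real.exp (- A i)) →
      ∀ t : ℝ, 0 ≤ t → ‖ch a x - rp P‖ ^ R ≤ B0 * Real.exp (-t) →
      Monotone (fun r => wt A (e' (σ r)).1) →
      (Fintype.card (Ix (m + 1) N)) * t -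
        (t + ∑ i, A i) ^ (m + 1) / ((m + 1).factorial * ∏ i, A i) ≤
        (N * (Fintype.card (Ix (m + 1) N)) + 1) * Real.log (hgt x) + D := by
  classical
  obtain ⟨M, b, lead, hl1, hl2, hl3⟩ := adapted Qr K (Ix (m + 1) N → Qr)
    (fun r => coef N c (e' (σ r)).1)
  have hM : M = Fintype.card (Ix (m + 1) N) := by
    have h1 := Module.finrank_eq_card_basis b
    rw [Module.finrank_fintype_fun_eq_card, Fintype.card_fin] at h1
    exact h1.symm
  let e : Fin M ≃ Ix (m + 1) N := Fintype.equivOfCardEq (by rw [Fintype.card_fin, hM])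
  obtain ⟨Z, C, hZ, hC, hsch⟩ := schV (by omega) hN e b b.linearIndependent
  set S : Fin M → ℝ := fun i => ∑ r : Fin K, |(coef N c (e' (σ r)).1 (b i) : ℝ)| with hS
  set E : Fin M → ℝ := fun i => ∑ α, |(b i α : ℝ)| * Cc α with hE
  have hS0 : ∀ i, 0 ≤ S i := fun i => Finset.sum_nonneg fun r _ => abs_nonneg _
  have hE0 : ∀ i, 0 ≤ E i := fun i => Finset.sum_nonneg fun r _ => mul_nonneg (abs_nonneg _) (hCc _)
  set Dd : Fin M → ℝ := fun i => S i + E i * B0 + 1 with hDd
  have hDd0 : ∀ i, 0 < Dd i := fun i => by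
    have := mul_nonneg (hE0 i) hB0
    have := hS0 i
    simp only [hDd]
    linarith
  refine ⟨Z, Real.log C + ∑ i, Real.log (Dd i), hZ, ?_⟩
  intro x hx0 hxa hxZ hη A hA hAG t ht hdist hmono
  set η := ch a x with hηdef
  have hηa : η a = 1 := div_self (by exact_mod_cast hxa)
  have hH := hgt_ge_one hx0
  have hHp : 0 < hgt x := by linarith
  -- the weights
  set w : Fin M → ℝ := fun i => if h : lead i < K then wt A (e' (σ ⟨lead i, h⟩)).1 else t with hw
  have hform : ∀ i, |∑ α, (b i α : ℝ) * ∏ j, η j ^ α.1 j| ≤ Dd i * Real.exp (- min t (w i)) := by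
    intro i
    have e1 : ∑ α, (b i α : ℝ) * ∏ j, η j ^ α.1 j =
        ∑ r : Fin K, (coef N c (e' (σ r)).1 (b i) : ℝ) * ∏ l, aeval η (G l) ^ (e' (σ r)).1 l +
        ∑ α, (b i α : ℝ) * (∏ j, η j ^ α.1 j -
          ∑ ν ∈ Bx m R, (c α ν : ℝ) * ∏ i, aeval η (G i) ^ ν i) := by
      have e2 : ∑ r : Fin K, (coef N c (e' (σ r)).1 (b i) : ℝ) *
          ∏ l, aeval η (G l) ^ (e' (σ r)).1 l =
          ∑ ν ∈ Bx m R, (coef N c ν (b i) : ℝ) * ∏ l, aeval η (G l) ^ ν l := by
        rw [← Finset.sum_coe_sort (Bx m R)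
          (fun ν => (coef N c ν (b i) : ℝ) * ∏ l, aeval η (G l) ^ ν l),
          ← Equiv.sum_comp (σ.trans e')]
        rfl
      rw [e2]
      have e3 : ∑ ν ∈ Bx m R, (coef N c ν (b i) : ℝ) * ∏ l, aeval η (G l) ^ ν l =
          ∑ α, (b i α : ℝ) * ∑ ν ∈ Bx m R, (c α ν : ℝ) * ∏ i, aeval η (G i) ^ ν i := by
        simp_rw [Finset.mul_sum]
        rw [Finset.sum_comm]
        refine Finset.sum_congr rfl fun ν _ => ?_
        have e4 : (coef N c ν (b i) : ℝ) = ∑ α, (b i α : ℝ) * (c α ν : ℝ) := by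
          show ((∑ α, b i α * c α ν : Qr) : ℝ) = _
          push_cast
          rfl
        rw [e4, Finset.sum_mul]
        refine Finset.sum_congr rfl fun α _ => ?_
        ring
      rw [e3, ← Finset.sum_add_distrib]
      refine Finset.sum_congr rfl fun α _ => ?_
      ring
    rw [e1]
    have h1 : |∑ r : Fin K, (coef N c (e' (σ r)).1 (b i) : ℝ) *
        ∏ l, aeval η (G l) ^ (e' (σ r)).1 l| ≤ S i * Real.exp (- min t (w i)) := by
      refine (Finset.abs_sum_le_sum_abs _ _).trans ?_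
      simp only [hS]
      rw [Finset.sum_mul]
      refine Finset.sum_le_sum fun r _ => ?_
      rw [abs_mul]
      by_cases hr : (r : ℕ) < lead i
      · have h2 : coef N c (e' (σ r)).1 (b i) = 0 := hl3 i r hr
        rw [h2]
        simp
      · push Not at hr
        apply mul_le_mul_of_nonneg_left _ (abs_nonneg _)
        rw [prod_exp G η A hAG]
        apply Real.exp_le_exp.2
        have hlt : lead i < K := lt_of_le_of_lt hr r.2
        have h3 : w i = wt A (e' (σ ⟨lead i, hlt⟩)).1 := by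
          simp only [hw, dif_pos hlt]
        have h4 : wt A (e' (σ ⟨lead i, hlt⟩)).1 ≤ wt A (e' (σ r)).1 := hmono (by
          rw [Fin.le_def]
          exact hr)
        have h5 : min t (w i) ≤ w i := min_le_right _ _
        linarith
    have h2 : |∑ α, (b i α : ℝ) * (∏ j, η j ^ α.1 j -
          ∑ ν ∈ Bx m R, (c α ν : ℝ) * ∏ i, aeval η (G i) ^ ν i)| ≤
        E i * B0 * Real.exp (- min t (w i)) := by
      have h3 : |∑ α, (b i α : ℝ) * (∏ j, η j ^ α.1 j -
          ∑ ν ∈ Bx m R, (c α ν : ℝ) * ∏ i, aeval η (G i) ^ ν i)| ≤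
          E i * ‖η - rp P‖ ^ R := by
        refine (Finset.abs_sum_le_sum_abs _ _).trans ?_
        simp only [hE]
        rw [Finset.sum_mul]
        refine Finset.sum_le_sum fun α _ => ?_
        rw [abs_mul, mul_assoc]
        exact mul_le_mul_of_nonneg_left (hexp α η hηa hη) (abs_nonneg _)
      refine h3.trans ?_
      rw [mul_assoc]
      apply mul_le_mul_of_nonneg_left _ (hE0 i)
      refine hdist.trans (mul_le_mul_of_nonneg_left ?_ hB0)
      apply Real.exp_le_exp.2
      have : min t (w i) ≤ t := min_le_left _ _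
      linarith
    refine (abs_add_le _ _).trans ((add_le_add h1 h2).trans ?_)
    rw [← add_mul]
    apply mul_le_mul_of_nonneg_right _ (Real.exp_pos _).le
    simp only [hDd]
    linarith
  -- the subspace theorem
  have h1 := hsch x hx0 hxZ
  have h2 : ∏ i, |∑ α, (b i α : ℝ) * (ver x α : ℝ)| ≤
      ∏ i, (hgt x ^ N * (Dd i * Real.exp (- min t (w i)))) := by
    refine Finset.prod_le_prod (fun i _ => abs_nonneg _) fun i _ => ?_
    have e1 : ∑ α, (b i α : ℝ) * (ver x α : ℝ) =
        (x a : ℝ) ^ N * ∑ α, (b i α : ℝ) * ∏ j, η j ^ α.1 j := by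
      rw [Finset.mul_sum]
      refine Finset.sum_congr rfl fun α _ => ?_
      rw [ver_ch a x hxa]
      ring
    rw [e1, abs_mul, abs_pow]
    exact mul_le_mul (pow_le_pow_left₀ (abs_nonneg _) (le_hgt x a) _) (hform i) (abs_nonneg _)
      (by positivity)
  have h3 : (hgt x)⁻¹ ≤ C * ∏ i, (hgt x ^ N * (Dd i * Real.exp (- min t (w i)))) :=
    h1.trans (mul_le_mul_of_nonneg_left h2 hC.le)
  have h4 := Real.log_le_log (inv_pos.2 hHp) h3
  have hpos : ∀ i, 0 < hgt x ^ N * (Dd i * Real.exp (- min t (w i))) := fun i =>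
    mul_pos (pow_pos hHp _) (mul_pos (hDd0 i) (Real.exp_pos _))
  rw [Real.log_inv, Real.log_mul hC.ne' (Finset.prod_pos fun i _ => hpos i).ne',
    Real.log_prod (fun i _ => (hpos i).ne')] at h4
  have h5 : ∀ i, Real.log (hgt x ^ N * (Dd i * Real.exp (- min t (w i)))) =
      N * Real.log (hgt x) + (Real.log (Dd i) - min t (w i)) := by
    intro i
    rw [Real.log_mul (pow_pos hHp _).ne' (mul_pos (hDd0 i) (Real.exp_pos _)).ne',
      Real.log_mul (hDd0 i).ne' (Real.exp_pos _).ne', Real.log_exp, Real.log_pow]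
    ring
  rw [Finset.sum_congr rfl fun i _ => h5 i, Finset.sum_add_distrib, Finset.sum_sub_distrib,
    Finset.sum_const, Finset.card_univ, Fintype.card_fin, nsmul_eq_mul] at h4
  -- the weights
  have h6 : ∑ i, min t (w i) = M * t - ∑ i, max 0 (t - w i) := by
    have h7 : ∀ i, min t (w i) = t - max 0 (t - w i) := by
      intro i
      rcases le_total t (w i) with h | h
      · rw [min_eq_left h, max_eq_left (by linarith)]
        ring
      · rw [min_eq_right h, max_eq_right (by linarith)]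
        ring
    rw [Finset.sum_congr rfl fun i _ => h7 i, Finset.sum_sub_distrib, Finset.sum_const,
      Finset.card_univ, Fintype.card_fin, nsmul_eq_mul]
  have h8 : ∑ i, max 0 (t - w i) ≤
      (t + ∑ i, A i) ^ (m + 1) / ((m + 1).factorial * ∏ i, A i) := by
    let ex : Fin M → (Fin m → ℕ) := fun i =>
      if h : lead i < K then (e' (σ ⟨lead i, h⟩)).1 else fun _ => 0
    refine le_trans ?_ (wt_sum m A hA t ht
      ((Finset.univ.filter fun i => lead i < K).image ex))
    rw [Finset.sum_image]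
    · have h9 : ∑ i, max 0 (t - w i) = ∑ i with lead i < K, max 0 (t - w i) := by
        symm
        refine Finset.sum_subset (Finset.filter_subset _ _) fun i _ hi => ?_
        have : ¬ lead i < K := fun h => hi (Finset.mem_filter.2 ⟨Finset.mem_univ _, h⟩)
        simp only [hw, dif_neg this, sub_self, max_self]
      rw [h9]
      refine Finset.sum_le_sum fun i hi => ?_
      have hlt := (Finset.mem_filter.1 hi).2
      simp only [hw, ex, dif_pos hlt]
      exact le_rfl
    · intro i hi j hj hij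
      have hlti : lead i < K := (Finset.mem_filter.1 hi).2
      have hltj : lead j < K := (Finset.mem_filter.1 hj).2
      simp only [ex, dif_pos hlti, dif_pos hltj] at hij
      have h10 := σ.injective (e'.injective (Subtype.ext hij))
      exact hl2 i j (by simpa using h10) hlti
  rw [← hM]
  linarith

end

end Pool.Agent.Q13.GM
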