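import Mathlib

set_option autoImplicit false

/-!
The number of monomials of small weight.
-/

namespace Pool.Agent.Q13.GM

/-- the weight of a monomial -/
noncomputable def wt {m : ℕ} (a : Fin m → ℝ) (μ : Fin m → ℕ) : ℝ := ∑ i, a i * (μ i : ℝ)

lemma wt_nonneg {m : ℕ} {a : Fin m → ℝ} (ha : ∀ i, 0 ≤ a i) (μ : Fin m → ℕ) : 0 ≤ wt a μ :=
  Finset.sum_nonneg fun i _ => mul_nonneg (ha i) (Nat.cast_nonneg _)

lemma bern (k : ℕ) {y c : ℝ} (hy : 0 ≤ y) (hc : 0 ≤ c) :
    ((k : ℝ) + 1) * c * y ^ k ≤ (y + c) ^ (k + 1) - y ^ (k + 1) := by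
  induction k with
  | zero => simp
  | succ k ih =>
    have h1 : (y + c) ^ (k + 1 + 1) - y ^ (k + 1 + 1) =
        (y + c) * ((y + c) ^ (k + 1) - y ^ (k + 1)) + c * y ^ (k + 1) := by ring
    rw [h1]
    have h2 : (y + c) * (((k : ℝ) + 1) * c * y ^ k) ≤
        (y + c) * ((y + c) ^ (k + 1) - y ^ (k + 1)) :=
      mul_le_mul_of_nonneg_left ih (by positivity)
    have h3 : y * (((k : ℝ) + 1) * c * y ^ k) ≤ (y + c) * (((k : ℝ) + 1) * c * y ^ k) :=
      mul_le_mul_of_nonneg_right (by linarith) (by positivity)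
    push_cast
    have h4 : y * (((k : ℝ) + 1) * c * y ^ k) = ((k : ℝ) + 1) * c * y ^ (k + 1) := by ring
    nlinarith

/-- telescoping -/
lemma tele (k : ℕ) {c s : ℝ} (hc : 0 < c) (J : ℕ) (hJ : c * J ≤ s) :
    ∑ j ∈ Finset.range (J + 1), (s - c * j) ^ k ≤ (s + c) ^ (k + 1) / ((k + 1) * c) := by
  rw [le_div_iff₀ (by positivity)]
  have h1 : ∀ j ∈ Finset.range (J + 1), (s - c * j) ^ k * ((k + 1) * c) ≤
      (s - c * j + c) ^ (k + 1) - (s - c * (j + 1 : ℕ) + c) ^ (k + 1) := by
    intro j hj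
    have hjJ : (j : ℝ) ≤ J := by exact_mod_cast Nat.lt_succ_iff.1 (Finset.mem_range.1 hj)
    have hy : 0 ≤ s - c * j := by nlinarith
    have h2 := bern k hy hc.le
    have h3 : s - c * ((j + 1 : ℕ) : ℝ) + c = s - c * j := by
      push_cast
      ring
    rw [h3]
    linarith
  rw [Finset.sum_mul]
  refine (Finset.sum_le_sum h1).trans ?_
  rw [Finset.sum_range_sub']
  have h4 : 0 ≤ (s - c * ((J + 1 : ℕ) : ℝ) + c) ^ (k + 1) := by
    apply pow_nonneg
    push_cast
    nlinarith
  have h5 : (s - c * ((0 : ℕ) : ℝ) + c) ^ (k + 1) = (s + c) ^ (k + 1) := by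
    push_cast
    ring_nf
  rw [h5]
  linarith

theorem wt_sum (m : ℕ) (a : Fin m → ℝ) (ha : ∀ i, 0 < a i) (t : ℝ) (ht : 0 ≤ t)
    (T : Finset (Fin m → ℕ)) :
    ∑ μ ∈ T, max 0 (t - wt a μ) ≤ (t + ∑ i, a i) ^ (m + 1) / ((m + 1).factorial * ∏ i, a i) := by
  classical
  induction m generalizing t with
  | zero =>
    simp only [Finset.univ_eq_empty, Finset.sum_empty, add_zero, zero_add, pow_one,
      Nat.factorial_one, Nat.cast_one, Finset.prod_empty, mul_one, div_one]
    have h1 : ∀ μ ∈ T, max 0 (t - wt a μ) = t := by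
      intro μ _
      have : wt a μ = 0 := by simp [wt]
      rw [this, sub_zero, max_eq_right ht]
    rw [Finset.sum_congr rfl h1, Finset.sum_const, nsmul_eq_mul]
    have h2 : T.card ≤ 1 := Finset.card_le_one.2 fun x _ y _ => Subsingleton.elim _ _
    have h3 : (T.card : ℝ) ≤ 1 := by exact_mod_cast h2
    nlinarith
  | succ m ih =>
    set a' : Fin m → ℝ := fun i => a i.succ with ha'
    set c : ℝ := a 0 with hc
    have hc0 : 0 < c := ha 0
    set T' : Finset (Fin m → ℕ) := T.image fun μ i => μ i.succ with hT'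
    set J : ℕ := ⌊t / c⌋₊ with hJ
    have hJ1 : c * J ≤ t := by
      have := Nat.floor_le (div_nonneg ht hc0.le)
      rw [le_div_iff₀ hc0] at this
      linarith
    have hJ2 : ∀ j : ℕ, J < j → t < c * j := by
      intro j hj
      have h1 : t / c < j := (Nat.floor_lt (div_nonneg ht hc0.le)).1 hj
      rw [div_lt_iff₀ hc0] at h1
      linarith
    have hw : ∀ μ : Fin (m + 1) → ℕ, wt a μ = c * μ 0 + wt a' (fun i => μ i.succ) := by
      intro μ
      unfold wt
      rw [Fin.sum_univ_succ]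
    -- bound by the sum over the product
    have h1 : ∑ μ ∈ T, max 0 (t - wt a μ) ≤
        ∑ p ∈ Finset.range (J + 1) ×ˢ T', max 0 (t - c * (p.1 : ℝ) - wt a' p.2) := by
      have h2 : ∑ μ ∈ T, max 0 (t - wt a μ) = ∑ μ ∈ T.filter (fun μ => μ 0 ≤ J),
          max 0 (t - wt a μ) := by
        symm
        refine Finset.sum_subset (Finset.filter_subset _ _) fun μ hμ hμ' => ?_
        have h3 : J < μ 0 := by
          by_contra h
          exact hμ' (Finset.mem_filter.2 ⟨hμ, not_lt.1 h⟩)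
        apply max_eq_left
        rw [hw]
        have := hJ2 _ h3
        have h4 := wt_nonneg (a := a') (fun i => (ha _).le) (fun i => μ i.succ)
        linarith
      rw [h2]
      have h5 : ∑ μ ∈ T.filter (fun μ => μ 0 ≤ J), max 0 (t - wt a μ) =
          ∑ μ ∈ T.filter (fun μ => μ 0 ≤ J), (fun p : ℕ × (Fin m → ℕ) =>
            max 0 (t - c * (p.1 : ℝ) - wt a' p.2)) (μ 0, fun i => μ i.succ) := by
        refine Finset.sum_congr rfl fun μ _ => ?_
        rw [hw]
        congr 1
        ring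
      rw [h5, ← Finset.sum_image (f := fun p : ℕ × (Fin m → ℕ) =>
            max 0 (t - c * (p.1 : ℝ) - wt a' p.2)) (g := fun μ : Fin (m + 1) → ℕ =>
            (μ 0, fun i => μ i.succ))]
      · refine Finset.sum_le_sum_of_subset_of_nonneg ?_ fun p _ _ => le_max_left _ _
        intro p hp
        obtain ⟨μ, hμ, rfl⟩ := Finset.mem_image.1 hp
        rw [Finset.mem_filter] at hμ
        refine Finset.mem_product.2 ⟨Finset.mem_range.2 (Nat.lt_succ_of_le hμ.2), ?_⟩
        exact Finset.mem_image_of_mem _ hμ.1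
      · intro μ _ ν _ h
        simp only [Prod.mk.injEq] at h
        funext i
        refine Fin.cases h.1 (fun i => ?_) i
        exact congrFun h.2 i
    refine h1.trans ?_
    rw [Finset.sum_product]
    have h3 : ∀ j ∈ Finset.range (J + 1), ∑ ν ∈ T', max 0 (t - c * (j : ℝ) - wt a' ν) ≤
        (t + ∑ i, a' i - c * j) ^ (m + 1) / ((m + 1).factorial * ∏ i, a' i) := by
      intro j hj
      have hjJ : (j : ℝ) ≤ J := by exact_mod_cast Nat.lt_succ_iff.1 (Finset.mem_range.1 hj)
      have := ih a' (fun i => ha _) (t - c * j) (by nlinarith) T'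
      have e : t - c * j + ∑ i, a' i = t + ∑ i, a' i - c * j := by ring
      rwa [e] at this
    refine (Finset.sum_le_sum h3).trans ?_
    rw [← Finset.sum_div]
    have hS' : 0 ≤ ∑ i, a' i := Finset.sum_nonneg fun i _ => (ha _).le
    have h4 := tele (m + 1) (c := c) (s := t + ∑ i, a' i) hc0 J (by linarith)
    have hP' : 0 < ∏ i, a' i := Finset.prod_pos fun i _ => ha _
    have h5 : (∑ j ∈ Finset.range (J + 1), (t + ∑ i, a' i - c * j) ^ (m + 1)) /
        ((m + 1).factorial * ∏ i, a' i) ≤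
        ((t + ∑ i, a' i + c) ^ (m + 1 + 1) / (((m + 1 : ℕ) + 1) * c)) /
        ((m + 1).factorial * ∏ i, a' i) :=
      div_le_div_of_nonneg_right h4 (by positivity)
    refine h5.trans (le_of_eq ?_)
    rw [Fin.sum_univ_succ, Fin.prod_univ_succ, div_div, Nat.factorial_succ (m + 1)]
    congr 1
    · congr 1
      rw [← hc]
      ring
    · push_cast
      rw [← hc]
      ring

end Pool.Agent.Q13.GM
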